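import Mathlib

set_option autoImplicit false

/-!
# The v-number, the depth and the dimensions of squarefree monomial ideals: all possible values

For every field `K` we determine all quadruples `(v(I), depth(R/I), m, dim(R/I))`, where `I` runs
over all squarefree monomial ideals of the polynomial rings `R = K[x_1, ..., x_n]` and `m` is the
least dimension `dim R/p` of an associated prime `p` of `I`:  they are `(0, d, d, d)` and all
`(a, b, m, d)` with `1 ≤ a ≤ m`, `1 ≤ b ≤ m ≤ d`.

So `v(I) ≤ depth(R/I)` fails over every field, for every depth `b ≥ 1` with `b < m`, also for unmixed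
ideals (`m = d`), and the only restriction on `v(I)` besides `v(I) ≥ 1` is `v(I) ≤ m`.
-/

namespace Pool.Agent.Results.MP_d06a13_ag.AllValues

open MvPolynomial

/-- `I` is a squarefree monomial ideal: a proper ideal generated by squarefree monomials
`∏ i ∈ s, x_i`. -/
def IsSquarefreeMonomialIdeal {σ K : Type*} [Field K] (I : Ideal (MvPolynomial σ K)) : Prop :=
  I ≠ ⊤ ∧ ∃ S : Set (Finset σ), I = Ideal.span ((fun s : Finset σ => ∏ i ∈ s, X i) '' S)

/-- The v-number of `I`: the least degree `d` of a homogeneous polynomial `f` for which the ideal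
`(I : f)` is an associated prime of `I`. -/
noncomputable def vNumber {σ K : Type*} [Field K] (I : Ideal (MvPolynomial σ K)) : ℕ∞ :=
  ⨅ d ∈ {d : ℕ | ∃ f : MvPolynomial σ K, f.IsHomogeneous d ∧
    I.colon {f} ∈ associatedPrimes (MvPolynomial σ K) (MvPolynomial σ K ⧸ I)}, (d : ℕ∞)

/-- The depth of `R / I` with respect to the homogeneous maximal ideal: the supremum of the lengths
of the regular sequences on `R / I` of elements of the ideal generated by the variables. -/
noncomputable def depth {σ K : Type*} [Field K] (I : Ideal (MvPolynomial σ K)) : ℕ∞ :=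
  ⨆ rs ∈ {rs : List (MvPolynomial σ K) | (∀ r ∈ rs, r ∈ Ideal.span (Set.range X)) ∧
    RingTheory.Sequence.IsRegular (MvPolynomial σ K ⧸ I) rs}, (rs.length : ℕ∞)

section general

variable {σ : Type*} [Fintype σ] [DecidableEq σ] (K : Type*) [Field K]

/-- the ideal generated by the squarefree monomials of the members of `S` -/
noncomputable def SR (S : Set (Finset σ)) : Ideal (MvPolynomial σ K) :=
  Ideal.span ((fun s : Finset σ => ∏ i ∈ s, X i) '' S)

/-- the faces: the sets containing no member of `S` -/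
def Face (S : Set (Finset σ)) (A : Finset σ) : Prop := ∀ s ∈ S, ¬ s ⊆ A

/-- the facets: the maximal faces -/
def Facet (S : Set (Finset σ)) (F : Finset σ) : Prop :=
  Face S F ∧ ∀ G, Face S G → F ⊆ G → G = F

/-- the exponent of the monomial of a finite set -/
noncomputable def expo (s : Finset σ) : σ →₀ ℕ := ∑ i ∈ s, Finsupp.single i 1

omit [Fintype σ] in
theorem expo_apply (s : Finset σ) (i : σ) : expo s i = if i ∈ s then 1 else 0 := by
  unfold expo
  rw [Finsupp.finsetSum_apply]
  simp [Finsupp.single_apply]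

omit [Fintype σ] in
theorem expo_support (s : Finset σ) : (expo s).support = s := by
  ext i
  rw [Finsupp.mem_support_iff, expo_apply]
  simp

omit [Fintype σ] [DecidableEq σ] in
theorem prod_X_eq (s : Finset σ) : (∏ i ∈ s, X i : MvPolynomial σ K) = monomial (expo s) 1 := by
  unfold expo
  rw [monomial_sum_one]
  rfl

variable {K}

omit [Fintype σ] in
theorem mem_SR {S : Set (Finset σ)} {g : MvPolynomial σ K} :
    g ∈ SR K S ↔ ∀ m ∈ g.support, ¬ Face S m.support := by
  have h : SR K S = Ideal.span ((fun s => monomial s (1 : K)) '' (expo '' S)) := by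
    unfold SR
    rw [Set.image_image]
    congr 1
    apply Set.image_congr
    intro s _
    exact prod_X_eq K s
  rw [h, mem_ideal_span_monomial_image]
  refine forall₂_congr fun m _ => ?_
  unfold Face
  push Not
  constructor
  · rintro ⟨_, ⟨s, hs, rfl⟩, hle⟩
    refine ⟨s, hs, fun i hi => ?_⟩
    have := hle i
    rw [expo_apply, if_pos hi] at this
    rw [Finsupp.mem_support_iff]
    omega
  · rintro ⟨s, hs, hsub⟩
    refine ⟨expo s, ⟨s, hs, rfl⟩, fun i => ?_⟩
    rw [expo_apply]
    split_ifs with hi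
    · have := hsub hi
      rw [Finsupp.mem_support_iff] at this
      omega
    · exact Nat.zero_le _

omit [Fintype σ] [DecidableEq σ] in
theorem Face.mono {S : Set (Finset σ)} {A B : Finset σ} (h : Face S B) (hAB : A ⊆ B) : Face S A :=
  fun s hs hsA => h s hs (hsA.trans hAB)

omit [Fintype σ] [DecidableEq σ] in
theorem prod_mem_SR {S : Set (Finset σ)} {A : Finset σ} (h : ¬ Face S A) :
    (∏ i ∈ A, X i : MvPolynomial σ K) ∈ SR K S := by
  unfold Face at h
  push Not at h
  obtain ⟨s, hs, hsA⟩ := h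
  have h1 : (∏ i ∈ s, X i : MvPolynomial σ K) ∣ ∏ i ∈ A, X i :=
    Finset.prod_dvd_prod_of_subset _ _ _ hsA
  exact Ideal.mem_of_dvd _ h1 (Ideal.subset_span ⟨s, hs, rfl⟩)

omit [Fintype σ] in
/-- support of the product with a squarefree monomial -/
theorem prod_mul_mem {S : Set (Finset σ)} {A : Finset σ} {g : MvPolynomial σ K} :
    (∏ i ∈ A, X i) * g ∈ SR K S ↔ ∀ m ∈ g.support, ¬ Face S (A ∪ m.support) := by
  rw [prod_X_eq, mem_SR]
  have hsup : ∀ m : σ →₀ ℕ, (expo A + m).support = A ∪ m.support := by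
    intro m
    ext i
    rw [Finsupp.mem_support_iff, Finsupp.add_apply, expo_apply, Finset.mem_union,
      Finsupp.mem_support_iff]
    split_ifs with h
    · simp [h]
    · simp [h]
  constructor
  · intro h m hm
    rw [← hsup]
    apply h
    rw [mem_support_iff, coeff_monomial_mul, one_mul]
    exact mem_support_iff.1 hm
  · intro h m hm
    rw [mem_support_iff, coeff_monomial_mul'] at hm
    split_ifs at hm with hle
    · have h2 := h (m - expo A) (by
        rw [mem_support_iff]
        intro h0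
        exact hm (by rw [h0, mul_zero]))
      rwa [← hsup, add_tsub_cancel_of_le hle] at h2
    · exact absurd rfl hm

variable (K)

/-- the prime ideal of the set `A`: generated by the variables outside `A` -/
noncomputable def PP (A : Finset σ) : Ideal (MvPolynomial σ K) :=
  Ideal.span (X '' {i | i ∉ A})

variable {K}

omit [Fintype σ] [DecidableEq σ] in
theorem mem_PP {A : Finset σ} {g : MvPolynomial σ K} :
    g ∈ PP K A ↔ ∀ m ∈ g.support, ¬ m.support ⊆ A := by
  unfold PP
  rw [mem_ideal_span_X_image]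
  refine forall₂_congr fun m _ => ?_
  rw [Finset.not_subset]
  constructor
  · rintro ⟨i, hi, hmi⟩
    exact ⟨i, Finsupp.mem_support_iff.2 hmi, hi⟩
  · rintro ⟨i, hi, hmi⟩
    exact ⟨i, hmi, Finsupp.mem_support_iff.1 hi⟩

/-- the quotient map by the prime of `A` -/
noncomputable def quo (K : Type*) [Field K] (A : Finset σ) :
    MvPolynomial σ K →ₐ[K] MvPolynomial {i // i ∈ A} K :=
  aeval (fun i => if h : i ∈ A then X ⟨i, h⟩ else 0)

omit [Fintype σ] in
theorem quo_X_mem {A : Finset σ} {i : σ} (h : i ∈ A) : quo K A (X i) = X ⟨i, h⟩ := by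
  simp [quo, h]

omit [Fintype σ] in
theorem quo_X_notMem {A : Finset σ} {i : σ} (h : i ∉ A) : quo K A (X i) = 0 := by
  simp [quo, h]

omit [Fintype σ] in
theorem quo_rename (A : Finset σ) (g : MvPolynomial {i // i ∈ A} K) :
    quo K A (rename Subtype.val g) = g := by
  induction g using MvPolynomial.induction_on with
  | C r => simp [quo]
  | add p q hp hq => rw [map_add, map_add, hp, hq]
  | mul_X p i hp => rw [map_mul, map_mul, hp, rename_X, quo_X_mem i.2]

omit [Fintype σ] in
theorem quo_surjective (A : Finset σ) : Function.Surjective (quo K A) :=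
  fun g => ⟨_, quo_rename A g⟩

omit [Fintype σ] in
theorem sub_mem_PP (A : Finset σ) (g : MvPolynomial σ K) :
    g - rename Subtype.val (quo K A g) ∈ PP K A := by
  induction g using MvPolynomial.induction_on with
  | C r => simp [quo]
  | add p q hp hq =>
    rw [map_add, map_add]
    have : p + q - (rename Subtype.val (quo K A p) + rename Subtype.val (quo K A q)) =
      (p - rename Subtype.val (quo K A p)) + (q - rename Subtype.val (quo K A q)) := by ring
    rw [this]
    exact Ideal.add_mem _ hp hq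
  | mul_X p i hp =>
    rw [map_mul, map_mul]
    by_cases hi : i ∈ A
    · rw [quo_X_mem hi, rename_X, ← sub_mul]
      exact Ideal.mul_mem_right _ _ hp
    · rw [quo_X_notMem hi, map_zero, mul_zero, sub_zero]
      exact Ideal.mul_mem_left _ _ (Ideal.subset_span ⟨i, hi, rfl⟩)

omit [Fintype σ] in
theorem mem_PP_iff {A : Finset σ} {g : MvPolynomial σ K} : g ∈ PP K A ↔ quo K A g = 0 := by
  constructor
  · intro hg
    have h : PP K A ≤ RingHom.ker (quo K A).toRingHom := by
      unfold PP
      rw [Ideal.span_le]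
      rintro _ ⟨i, hi, rfl⟩
      rw [SetLike.mem_coe, RingHom.mem_ker]
      exact quo_X_notMem hi
    exact h hg
  · intro h
    have := sub_mem_PP A g
    rwa [h, map_zero, sub_zero] at this

omit [Fintype σ] in
theorem PP_eq_ker (A : Finset σ) : PP K A = RingHom.ker (quo K A) := by
  ext g
  rw [mem_PP_iff, RingHom.mem_ker]

omit [Fintype σ] in
theorem PP_prime (A : Finset σ) : (PP K A).IsPrime := by
  rw [PP_eq_ker]
  exact RingHom.ker_isPrime _

theorem dim_PP (A : Finset σ) :
    ringKrullDim (MvPolynomial σ K ⧸ PP K A) = (A.card : ℕ) := by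
  have e : (MvPolynomial σ K ⧸ PP K A) ≃+* MvPolynomial {i // i ∈ A} K := by
    rw [PP_eq_ker]
    exact RingHom.quotientKerEquivOfSurjective (f := (quo K A).toRingHom) (quo_surjective A)
  rw [ringKrullDim_eq_of_ringEquiv e, MvPolynomial.ringKrullDim_of_isNoetherianRing,
    ringKrullDim_eq_zero_of_field]
  simp

omit [DecidableEq σ] in
theorem exists_facet {S : Set (Finset σ)} {A : Finset σ} (hA : Face S A) :
    ∃ F, Facet S F ∧ A ⊆ F := by
  obtain ⟨F, hAF, hF⟩ := Finite.exists_le_maximal (p := Face S) hA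
  exact ⟨F, ⟨hF.1, fun G hG hFG => (Finset.Subset.antisymm (hF.2 hG hFG) hFG)⟩, hAF⟩

omit [Fintype σ] in
theorem SR_le_PP {S : Set (Finset σ)} {A : Finset σ} (hA : Face S A) : SR K S ≤ PP K A := by
  intro g hg
  rw [mem_PP]
  rw [mem_SR] at hg
  intro m hm hsub
  exact hg m hm (hA.mono hsub)

theorem mem_of_forall {S : Set (Finset σ)} {g : MvPolynomial σ K}
    (h : ∀ F, Facet S F → g ∈ PP K F) : g ∈ SR K S := by
  rw [mem_SR]
  intro m hm hface
  obtain ⟨F, hF, hmF⟩ := exists_facet hface
  exact (mem_PP.1 (h F hF)) m hm hmF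

omit [Fintype σ] in
theorem prod_notMem {A B : Finset σ} (hAB : A ⊆ B) :
    (∏ i ∈ A, X i : MvPolynomial σ K) ∉ PP K B := by
  rw [mem_PP_iff, map_prod]
  intro h
  obtain ⟨i, hi, h0⟩ := Finset.prod_eq_zero_iff.1 h
  rw [quo_X_mem (hAB hi)] at h0
  exact X_ne_zero _ h0

omit [Fintype σ] in
/-- if every `insert j A` with `j ∉ B` is a nonface, then `(I : x_A)` is the prime of `B` -/
theorem colon_eq_PP {S : Set (Finset σ)} {A B : Finset σ} (hAB : A ⊆ B) (hB : Face S B)
    (h : ∀ j, j ∉ B → ¬ Face S (insert j A)) :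
    (SR K S).colon {∏ i ∈ A, X i} = PP K B := by
  ext g
  rw [Submodule.mem_colon_singleton, smul_eq_mul]
  constructor
  · intro hg
    rcases (PP_prime B).mem_or_mem (SR_le_PP hB hg) with h1 | h1
    · exact h1
    · exact absurd h1 (prod_notMem hAB)
  · intro hg
    have h1 : PP K B ≤ (SR K S).colon {∏ i ∈ A, X i} := by
      unfold PP
      rw [Ideal.span_le]
      rintro _ ⟨j, hj, rfl⟩
      rw [SetLike.mem_coe, Submodule.mem_colon_singleton, smul_eq_mul]
      have hjA : j ∉ A := fun hh => hj (hAB hh)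
      rw [← Finset.prod_insert hjA]
      exact prod_mem_SR (h j hj)
    have h2 := h1 hg
    rwa [Submodule.mem_colon_singleton, smul_eq_mul] at h2

omit [Fintype σ] [DecidableEq σ] in
/-- the colon ideal as an annihilator in the quotient -/
theorem colon_eq (I : Ideal (MvPolynomial σ K)) (f : MvPolynomial σ K) :
    I.colon {f} = (⊥ : Submodule (MvPolynomial σ K) (MvPolynomial σ K ⧸ I)).colon
      {Ideal.Quotient.mk I f} := by
  ext g
  rw [Submodule.mem_colon_singleton, Submodule.mem_colon_singleton, Submodule.mem_bot,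
    smul_eq_mul, ← Ideal.Quotient.eq_zero_iff_mem, map_mul]
  rfl

omit [DecidableEq σ] in
theorem mem_assoc_iff (I : Ideal (MvPolynomial σ K)) (p : Ideal (MvPolynomial σ K)) :
    p ∈ associatedPrimes (MvPolynomial σ K) (MvPolynomial σ K ⧸ I) ↔
      p.IsPrime ∧ ∃ f, I.colon {f} = p := by
  rw [AssociatedPrimes.mem_iff, isAssociatedPrime_iff]
  refine and_congr_right fun _ => ?_
  constructor
  · rintro ⟨x, hx⟩
    obtain ⟨f, rfl⟩ := Ideal.Quotient.mk_surjective x
    exact ⟨f, (colon_eq I f).trans hx.symm⟩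
  · rintro ⟨f, hf⟩
    exact ⟨Ideal.Quotient.mk I f, (hf.symm.trans (colon_eq I f))⟩

omit [Fintype σ] in
theorem colon_facet {S : Set (Finset σ)} {F : Finset σ} (hF : Facet S F) :
    (SR K S).colon {∏ i ∈ F, X i} = PP K F :=
  colon_eq_PP (Finset.Subset.refl _) hF.1 fun j hj hface =>
    hj (by rw [← hF.2 _ hface (Finset.subset_insert j F)]; exact Finset.mem_insert_self _ _)

theorem assoc_iff {S : Set (Finset σ)} {p : Ideal (MvPolynomial σ K)} :
    p ∈ associatedPrimes (MvPolynomial σ K) (MvPolynomial σ K ⧸ SR K S) ↔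
      ∃ F, Facet S F ∧ p = PP K F := by
  classical
  rw [mem_assoc_iff]
  constructor
  · rintro ⟨hp, f, hf⟩
    have hmem : ∀ g, g ∈ p ↔ g * f ∈ SR K S := by
      intro g
      rw [← hf, Submodule.mem_colon_singleton, smul_eq_mul]
    have key : ∃ F, Facet S F ∧ f ∉ PP K F ∧ PP K F ≤ p := by
      by_contra hcon
      push Not at hcon
      have h1 : ∀ F : Finset σ, ∃ g : MvPolynomial σ K,
          (Facet S F → f ∉ PP K F → g ∈ PP K F) ∧ g ∉ p := by
        intro F
        by_cases hF : Facet S F ∧ f ∉ PP K F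
        · obtain ⟨g, hg1, hg2⟩ := SetLike.not_le_iff_exists.1 (hcon F hF.1 hF.2)
          exact ⟨g, fun _ _ => hg1, hg2⟩
        · refine ⟨1, fun h1 h2 => absurd ⟨h1, h2⟩ hF, ?_⟩
          intro h1
          exact hp.ne_top ((Ideal.eq_top_iff_one _).2 h1)
      choose g hg1 hg2 using h1
      have h2 : (∏ F : Finset σ, g F) ∈ p := by
        rw [hmem]
        refine mem_of_forall fun F hF => ?_
        by_cases hfF : f ∈ PP K F
        · exact Ideal.mul_mem_left _ _ hfF
        · exact Ideal.mul_mem_right _ _ (Ideal.mem_of_dvd _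
            (Finset.dvd_prod_of_mem g (Finset.mem_univ F)) (hg1 F hF hfF))
      obtain ⟨F, -, hF⟩ := hp.prod_mem_iff.1 h2
      exact hg2 F hF
    obtain ⟨F, hF, hfF, hle⟩ := key
    refine ⟨F, hF, le_antisymm ?_ hle⟩
    intro g hg
    rw [hmem] at hg
    exact ((PP_prime F).mem_or_mem (SR_le_PP hF.1 hg)).resolve_right hfF
  · rintro ⟨F, hF, rfl⟩
    exact ⟨PP_prime F, _, colon_facet hF⟩

omit [Fintype σ] in
/-- the ideal is proper iff the empty set is a face -/
theorem SR_ne_top_iff {S : Set (Finset σ)} : SR K S ≠ ⊤ ↔ Face S ∅ := by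
  rw [Ne, Ideal.eq_top_iff_one, mem_SR]
  constructor
  · intro h
    push Not at h
    obtain ⟨m, hm, hface⟩ := h
    exact hface.mono (Finset.empty_subset _)
  · intro h h2
    refine h2 0 ?_ (by simpa using h)
    rw [mem_support_iff, coeff_zero_one]
    exact one_ne_zero

end general

section dimension

variable {σ : Type*} [Fintype σ] [DecidableEq σ] {K : Type*} [Field K]

/-- a prime containing the ideal contains the prime of a facet -/
theorem exists_facet_le {S : Set (Finset σ)} {q : Ideal (MvPolynomial σ K)} (hq : q.IsPrime)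
    (h : SR K S ≤ q) : ∃ F, Facet S F ∧ PP K F ≤ q := by
  classical
  by_contra hcon
  push Not at hcon
  have h1 : ∀ F : Finset σ, ∃ g : MvPolynomial σ K, (Facet S F → g ∈ PP K F) ∧ g ∉ q := by
    intro F
    by_cases hF : Facet S F
    · obtain ⟨g, hg1, hg2⟩ := SetLike.not_le_iff_exists.1 (hcon F hF)
      exact ⟨g, fun _ => hg1, hg2⟩
    · refine ⟨1, fun h1 => absurd h1 hF, ?_⟩
      intro h1
      exact hq.ne_top ((Ideal.eq_top_iff_one _).2 h1)
  choose g hg1 hg2 using h1
  have h2 : (∏ F : Finset σ, g F) ∈ q := by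
    refine h (mem_of_forall fun F hF => ?_)
    exact Ideal.mem_of_dvd _ (Finset.dvd_prod_of_mem g (Finset.mem_univ F)) (hg1 F hF)
  obtain ⟨F, -, hF⟩ := hq.prod_mem_iff.1 h2
  exact hg2 F hF

/-- upper bound for the dimension -/
theorem dim_le {S : Set (Finset σ)} {d : ℕ} (h : ∀ F, Facet S F → F.card ≤ d) :
    ringKrullDim (MvPolynomial σ K ⧸ SR K S) ≤ (d : ℕ) := by
  rw [ringKrullDim_quotient]
  refine iSup_le fun l => ?_
  obtain ⟨F, hF, hle⟩ := exists_facet_le (K := K) (S := S) l.head.1.isPrime l.head.2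
  have h1 : ∀ i, (l i).1 ∈ PrimeSpectrum.zeroLocus (PP K F : Set (MvPolynomial σ K)) := by
    intro i
    have h2 : l.head ≤ l i := LTSeries.head_le l i
    exact hle.trans h2
  let l' : LTSeries (PrimeSpectrum.zeroLocus (PP K F : Set (MvPolynomial σ K))) :=
    { length := l.length
      toFun := fun i => ⟨(l i).1, h1 i⟩
      step := fun i => l.step i }
  have h3 : (l'.length : WithBot ℕ∞) ≤
      Order.krullDim (PrimeSpectrum.zeroLocus (PP K F : Set (MvPolynomial σ K))) :=
    le_iSup (fun q : LTSeries (PrimeSpectrum.zeroLocus (PP K F : Set (MvPolynomial σ K))) =>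
      (q.length : WithBot ℕ∞)) l'
  rw [← ringKrullDim_quotient, dim_PP] at h3
  exact h3.trans (by exact_mod_cast h F hF)

theorem le_dim {S : Set (Finset σ)} {F : Finset σ} (hF : Face S F) :
    ((F.card : ℕ) : WithBot ℕ∞) ≤ ringKrullDim (MvPolynomial σ K ⧸ SR K S) := by
  rw [← dim_PP (K := K) F]
  exact ringKrullDim_le_of_surjective (Ideal.Quotient.factor (SR_le_PP hF))
    (Ideal.Quotient.factor_surjective (SR_le_PP hF))

end dimension

/-! ### Depth tools: hypersurface sections, and the bound by the dimension of an associated prime -/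

section partB

open MvPolynomial RingTheory.Sequence Pointwise

universe u

section rees

open CategoryTheory Abelian

variable {R : Type u} [CommRing R] [IsNoetherianRing R]

/-- if `M` has a regular sequence of length `n + 1` in `I`, then `M / x M` has one of length `n`,
for every `M`-regular `x ∈ I` -/
theorem quot_regular (I : Ideal R) (M : Type u) [AddCommGroup M] [Module R M] [Module.Finite R M]
    {x : R} (hxI : x ∈ I) (hx : IsSMulRegular M x) (hI : I • (⊤ : Submodule R M) < ⊤)
    {n : ℕ} (h : ∃ rs : List R, rs.length = n + 1 ∧ (∀ r ∈ rs, r ∈ I) ∧ IsRegular M rs) :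
    ∃ rs : List R, rs.length = n ∧ (∀ r ∈ rs, r ∈ I) ∧ IsRegular (QuotSMulTop x M) rs := by
  have hI' : I • (⊤ : Submodule R (QuotSMulTop x M)) < ⊤ := by
    rw [lt_top_iff_ne_top]
    intro eq
    apply hI.ne
    have h1 := congrArg (Submodule.comap (Submodule.mkQ (x • (⊤ : Submodule R M)))) eq
    have h2 : x • (⊤ : Submodule R M) ≤ I • ⊤ := by
      rw [← Submodule.ideal_span_singleton_smul]
      exact Submodule.smul_mono_left ((Ideal.span_singleton_le_iff_mem I).mpr hxI)
    simpa [Submodule.comap_smul_top_of_surjective I _ (Submodule.mkQ_surjective _), h2] using h1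
  have t1 := (ModuleCat.exists_isRegular_tfae I (n + 1) (ModuleCat.of R M) hI)
  have t2 := (ModuleCat.exists_isRegular_tfae I n (ModuleCat.of R (QuotSMulTop x M)) hI')
  have h1 := (t1.out 3 1).1 h
  have hx' : IsSMulRegular (ModuleCat.of R M) x := hx
  have h2 : ∀ i < n, Subsingleton (Ext (ModuleCat.of R (Shrink.{u} (R ⧸ I)))
      (ModuleCat.of R (QuotSMulTop x M)) i) := by
    intro i hi
    have zero1 := AddCommGrpCat.isZero_of_iff_subsingleton.mpr (h1 i (by omega))
    have zero2 := AddCommGrpCat.isZero_of_iff_subsingleton.mpr (h1 (i + 1) (by omega))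
    exact AddCommGrpCat.subsingleton_of_isZero <| ShortComplex.Exact.isZero_of_both_zeros
      ((Ext.covariant_sequence_exact₃' (ModuleCat.of R (Shrink.{u} (R ⧸ I)))
        hx'.smulShortComplex_shortExact) i (i + 1) rfl)
      (zero1.eq_zero_of_src _) (zero2.eq_zero_of_tgt _)
  exact (t2.out 1 3).1 h2

end rees

section assoc

variable {R : Type*} [CommRing R] [IsNoetherianRing R]

/-- an associated prime inside the prime `m` extends to an associated prime of `M / x M` which is
strictly larger and still inside `m` -/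
theorem exists_assoc_quot (m : Ideal R) [hm : m.IsPrime] (M : Type*) [AddCommGroup M] [Module R M]
    [Module.Finite R M] {x : R} (hxm : x ∈ m) (hx : IsSMulRegular M x) {p : Ideal R}
    (hp : p ∈ associatedPrimes R M) (hpm : p ≤ m) :
    ∃ q ∈ associatedPrimes R (QuotSMulTop x M), q ≤ m ∧ p ≤ q ∧ x ∈ q ∧ x ∉ p := by
  classical
  rw [AssociatedPrimes.mem_iff, isAssociatedPrime_iff] at hp
  obtain ⟨hpp, z0, hz0⟩ := hp
  have hz0' : ∀ r, r ∈ p ↔ r • z0 = 0 := by
    intro r
    rw [hz0, Submodule.mem_colon_singleton, Submodule.mem_bot]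
  have hxp : x ∉ p := by
    intro h
    rw [hz0'] at h
    have h1 : z0 = 0 := by
      apply hx
      simpa using h
    apply hpp.ne_top
    rw [Ideal.eq_top_iff_one, hz0', h1, smul_zero]
  -- the submodule killed by `p`
  let U : Submodule R M := Submodule.torsionBySet R M (p : Set R)
  have hU : ∀ z, z ∈ U ↔ ∀ r ∈ p, r • z = 0 := by
    intro z
    rw [Submodule.mem_torsionBySet_iff]
    exact ⟨fun h r hr => h ⟨r, hr⟩, fun h r => h r.1 r.2⟩
  have hz0U : z0 ∈ U := (hU z0).2 fun r hr => (hz0' r).1 hr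
  have key : ∃ z ∈ U, ∀ r, r • z ∈ x • (⊤ : Submodule R M) → r ∈ m := by
    by_contra hcon
    push Not at hcon
    -- a common multiplier
    have hfg : U.FG := IsNoetherian.noetherian U
    have h1 : ∃ r ∉ m, ∀ z ∈ U, r • z ∈ x • (⊤ : Submodule R M) := by
      obtain ⟨t, ht⟩ := hfg
      choose! r hr1 hr2 using hcon
      refine ⟨∏ z ∈ t, r z, ?_, ?_⟩
      · intro h
        obtain ⟨z, hz, h2⟩ := hm.prod_mem_iff.1 h
        exact hr2 z (by rw [← ht]; exact Submodule.subset_span hz) h2
      · intro z hz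
        rw [← ht] at hz
        induction hz using Submodule.span_induction with
        | mem z hz =>
          rw [← Finset.mul_prod_erase _ _ hz, mul_comm, mul_smul]
          exact Submodule.smul_mem _ _ (hr1 z (by rw [← ht]; exact Submodule.subset_span hz))
        | zero => rw [smul_zero]; exact Submodule.zero_mem _
        | add a b _ _ ha hb => rw [smul_add]; exact Submodule.add_mem _ ha hb
        | smul c a _ ha => rw [smul_comm]; exact Submodule.smul_mem _ _ ha
    obtain ⟨r, hrm, hr⟩ := h1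
    -- `r U ⊆ x U`
    have h2 : ∀ z ∈ U, ∃ y ∈ U, r • z = x • y := by
      intro z hz
      obtain ⟨y, -, hy⟩ := (Submodule.mem_smul_pointwise_iff_exists _ _ _).1 (hr z hz)
      refine ⟨y, (hU y).2 fun s hs => ?_, hy.symm⟩
      apply hx
      show x • s • y = x • (0 : M)
      rw [smul_zero, smul_comm, hy, smul_comm, (hU z).1 hz s hs, smul_zero]
    let f : Module.End R U := r • LinearMap.id
    have h3 : LinearMap.range f ≤ Ideal.span {x} • (⊤ : Submodule R U) := by
      rintro _ ⟨z, rfl⟩
      obtain ⟨y, hy, hyz⟩ := h2 z.1 z.2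
      have h4 : f z = x • (⟨y, hy⟩ : U) := by
        apply Subtype.ext
        exact hyz
      rw [h4]
      exact Submodule.smul_mem_smul (Ideal.mem_span_singleton_self x) trivial
    obtain ⟨P, hP, -, hPc, hPf⟩ :=
      LinearMap.exists_monic_and_natDegree_eq_and_coeff_mem_pow_and_aeval_eq_zero R f _ h3
    have h5 : P.eval r • z0 = 0 := by
      have h6 : Polynomial.aeval f P = P.eval r • (LinearMap.id : Module.End R U) := by
        rw [Polynomial.aeval_eq_sum_range, Polynomial.eval_eq_sum_range, Finset.sum_smul]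
        refine Finset.sum_congr rfl fun i _ => ?_
        have h7 : f ^ i = r ^ i • (LinearMap.id : Module.End R U) := by
          show (r • (1 : Module.End R U)) ^ i = r ^ i • (1 : Module.End R U)
          rw [smul_pow, one_pow]
        rw [h7, smul_smul]
      rw [hPf] at h6
      have h8 := congrArg (fun g : Module.End R U => (g ⟨z0, hz0U⟩ : U).1) h6
      simpa using h8.symm
    rw [← hz0'] at h5
    have h6 := hpm h5
    rw [Polynomial.eval_eq_sum_range, Finset.sum_range_succ] at h6
    have h7 : ∑ i ∈ Finset.range P.natDegree, P.coeff i * r ^ i ∈ m := by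
      refine Ideal.sum_mem _ fun i hi => Ideal.mul_mem_right _ _ ?_
      have h8 := hPc i
      have h9 : P.natDegree - i ≠ 0 := by
        have := Finset.mem_range.1 hi
        omega
      exact (Ideal.pow_le_self h9).trans ((Ideal.span_singleton_le_iff_mem _).2 hxm) h8
    rw [Ideal.add_mem_iff_right _ h7, hP.coeff_natDegree, one_mul] at h6
    exact hrm (hm.mem_of_pow_mem _ h6)
  obtain ⟨z, hzU, hz⟩ := key
  -- the cyclic module generated by the class of `z`
  let w : QuotSMulTop x M := Submodule.Quotient.mk z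
  let N : Submodule R (QuotSMulTop x M) := Submodule.span R {w}
  have hann : ∀ r, r ∈ Module.annihilator R N ↔ r • z ∈ x • (⊤ : Submodule R M) := by
    intro r
    rw [Module.mem_annihilator]
    constructor
    · intro h
      have h1 := congrArg Subtype.val (h ⟨w, Submodule.mem_span_singleton_self w⟩)
      have h2 : (Submodule.Quotient.mk (r • z) : QuotSMulTop x M) = 0 := h1
      rwa [Submodule.Quotient.mk_eq_zero] at h2
    · intro h n
      obtain ⟨c, hc⟩ := Submodule.mem_span_singleton.1 n.2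
      apply Subtype.ext
      show r • n.1 = 0
      rw [← hc, smul_comm]
      have h2 : (Submodule.Quotient.mk (r • z) : QuotSMulTop x M) = 0 := by
        rw [Submodule.Quotient.mk_eq_zero]; exact h
      have h3 : r • w = 0 := h2
      rw [h3, smul_zero]
  have hle : Module.annihilator R N ≤ m := fun r hr => hz r ((hann r).1 hr)
  obtain ⟨q, hq, hqm⟩ := Ideal.exists_minimalPrimes_le hle
  have hqa : q ∈ associatedPrimes R N :=
    Module.associatedPrimes.minimalPrimes_annihilator_subset_associatedPrimes R N hq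
  refine ⟨q, associatedPrimes.subset_of_injective N.injective_subtype hqa, hqm, ?_, ?_, hxp⟩
  · intro r hr
    apply hq.1.2
    rw [hann, (hU z).1 hzU r hr]
    exact Submodule.zero_mem _
  · apply hq.1.2
    rw [hann]
    exact (Submodule.mem_smul_pointwise_iff_exists _ _ _).2 ⟨z, trivial, rfl⟩

/-- the length of a regular sequence in a prime `m` is at most the dimension of `R / p` for every
associated prime `p ⊆ m` -/
theorem length_le_dim (m : Ideal R) [hm : m.IsPrime] (rs : List R) : ∀ (M : Type u)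
    [AddCommGroup M] [Module R M] [Module.Finite R M], (∀ r ∈ rs, r ∈ m) → IsWeaklyRegular M rs →
    ∀ p ∈ associatedPrimes R M, p ≤ m → ((rs.length : ℕ) : WithBot ℕ∞) ≤ ringKrullDim (R ⧸ p) := by
  induction rs with
  | nil =>
    intro M _ _ _ _ _ p hp _
    have h1 : p.IsPrime := (AssociatedPrimes.mem_iff.1 hp).isPrime
    have : Nontrivial (R ⧸ p) := Ideal.Quotient.nontrivial_iff.2 h1.ne_top
    simpa using ringKrullDim_nonneg_of_nontrivial (R := R ⧸ p)
  | cons x rs ih =>
    intro M _ _ _ hmem hreg p hp hpm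
    rw [isWeaklyRegular_cons_iff] at hreg
    obtain ⟨q, hq, hqm, hpq, hxq, hxp⟩ := exists_assoc_quot m M (hmem x (by simp)) hreg.1 hp hpm
    have h1 := ih (QuotSMulTop x M) (fun r hr => hmem r (by simp [hr])) hreg.2 q hq hqm
    have hpp : p.IsPrime := (AssociatedPrimes.mem_iff.1 hp).isPrime
    have h2 : ringKrullDim (R ⧸ q) + 1 ≤ ringKrullDim (R ⧸ p) := by
      have h3 : Ideal.Quotient.mk p x ∈ nonZeroDivisors (R ⧸ p) := by
        rw [mem_nonZeroDivisors_iff_ne_zero]
        intro h
        exact hxp (Ideal.Quotient.eq_zero_iff_mem.1 h)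
      refine le_trans ?_ (ringKrullDim_quotient_succ_le_of_nonZeroDivisor h3)
      gcongr
      have h4 : ∀ a ∈ Ideal.span {Ideal.Quotient.mk p x}, Ideal.Quotient.factor hpq a = 0 := by
        have h5 : Ideal.span {Ideal.Quotient.mk p x} ≤ RingHom.ker (Ideal.Quotient.factor hpq) := by
          rw [Ideal.span_singleton_le_iff_mem, RingHom.mem_ker, Ideal.Quotient.factor_mk]
          exact Ideal.Quotient.eq_zero_iff_mem.2 hxq
        exact fun a ha => h5 ha
      exact ringKrullDim_le_of_surjective (Ideal.Quotient.lift _ _ h4)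
        (Ideal.Quotient.lift_surjective_of_surjective _ h4 (Ideal.Quotient.factor_surjective hpq))
    refine le_trans ?_ h2
    rw [List.length_cons]
    push_cast
    gcongr

end assoc

end partB

/-! ### Depth of squarefree monomial ideals -/

section partC

open MvPolynomial RingTheory.Sequence Pointwise

section depth

variable {n : ℕ} {K : Type*} [Field K]

/-- the ideal of the variables -/
noncomputable abbrev mm (n : ℕ) (K : Type*) [Field K] : Ideal (MvPolynomial (Fin n) K) :=
  Ideal.span (Set.range X)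

theorem mm_eq : mm n K = PP K (∅ : Finset (Fin n)) := by
  unfold mm PP
  congr 1
  ext x
  simp

theorem mm_prime : (mm n K).IsPrime := by
  rw [mm_eq]
  exact PP_prime _

theorem PP_le_mm (F : Finset (Fin n)) : PP K F ≤ mm n K := by
  rw [mm_eq]
  unfold PP
  apply Ideal.span_mono
  rintro _ ⟨i, _, rfl⟩
  exact ⟨i, by simp, rfl⟩

theorem SR_le_mm {S : Set (Finset (Fin n))} (h : Face S ∅) : SR K S ≤ mm n K := by
  rw [mm_eq]
  exact SR_le_PP h

theorem smulRegular_iff (I : Ideal (MvPolynomial (Fin n) K)) (r : MvPolynomial (Fin n) K) :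
    IsSMulRegular (MvPolynomial (Fin n) K ⧸ I) r ↔ ∀ g, r * g ∈ I → g ∈ I := by
  rw [isSMulRegular_iff_right_eq_zero_of_smul]
  constructor
  · intro h g hg
    rw [← Ideal.Quotient.eq_zero_iff_mem]
    apply h
    rw [← Ideal.Quotient.eq_zero_iff_mem, map_mul] at hg
    exact hg
  · intro h x hx
    obtain ⟨g, rfl⟩ := Ideal.Quotient.mk_surjective x
    rw [Ideal.Quotient.eq_zero_iff_mem]
    apply h
    rw [← Ideal.Quotient.eq_zero_iff_mem, map_mul]
    exact hx

/-- membership in `r (R / I)` -/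
theorem mem_smul_top (I : Ideal (MvPolynomial (Fin n) K)) (r g : MvPolynomial (Fin n) K) :
    Ideal.Quotient.mk I g ∈ (r • (⊤ : Submodule (MvPolynomial (Fin n) K)
      (MvPolynomial (Fin n) K ⧸ I))) ↔ g ∈ I ⊔ Ideal.span {r} := by
  rw [Submodule.mem_smul_pointwise_iff_exists]
  constructor
  · rintro ⟨x, -, hx⟩
    obtain ⟨s, rfl⟩ := Ideal.Quotient.mk_surjective x
    have hx' : Ideal.Quotient.mk I (r * s) = Ideal.Quotient.mk I g := by
      rw [map_mul]; exact hx
    rw [Ideal.Quotient.eq] at hx'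
    have h1 : g = -(r * s - g) + s * r := by ring
    rw [h1]
    exact Ideal.add_mem _ (Ideal.mem_sup_left (neg_mem hx'))
      (Ideal.mem_sup_right (Ideal.mul_mem_left _ _ (Ideal.mem_span_singleton_self r)))
  · intro h
    obtain ⟨i, hi, j, hj, hij⟩ := Submodule.mem_sup.1 h
    obtain ⟨s, rfl⟩ := Ideal.mem_span_singleton'.1 hj
    refine ⟨Ideal.Quotient.mk I s, trivial, ?_⟩
    have h1 : r • Ideal.Quotient.mk I s = Ideal.Quotient.mk I (r * s) := by
      rw [map_mul]; rfl
    rw [h1, Ideal.Quotient.eq, ← hij]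
    have : r * s - (i + s * r) = -i := by ring
    rw [this]
    exact neg_mem hi

/-- `(R / I) / x (R / I)` is `R / (I + (x))` -/
theorem exists_equiv (I : Ideal (MvPolynomial (Fin n) K)) (x : MvPolynomial (Fin n) K) :
    Nonempty (QuotSMulTop x (MvPolynomial (Fin n) K ⧸ I) ≃ₗ[MvPolynomial (Fin n) K]
      (MvPolynomial (Fin n) K ⧸ (I ⊔ Ideal.span {x}))) := by
  let f : MvPolynomial (Fin n) K →ₗ[MvPolynomial (Fin n) K]
      QuotSMulTop x (MvPolynomial (Fin n) K ⧸ I) :=
    (Submodule.mkQ (x • (⊤ : Submodule (MvPolynomial (Fin n) K)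
      (MvPolynomial (Fin n) K ⧸ I)))).comp (Submodule.mkQ I)
  have hf : Function.Surjective f :=
    (Submodule.mkQ_surjective _).comp (Submodule.mkQ_surjective _)
  have hker : LinearMap.ker f = I ⊔ Ideal.span {x} := by
    ext g
    rw [LinearMap.mem_ker, ← mem_smul_top]
    exact Submodule.Quotient.mk_eq_zero _
  exact ⟨((Submodule.quotEquivOfEq _ _ hker).symm.trans
    (f.quotKerEquivOfSurjective hf)).symm⟩

/-- `R / I` has a regular sequence of length `k` inside the ideal of the variables -/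
def HasReg (I : Ideal (MvPolynomial (Fin n) K)) (k : ℕ) : Prop :=
  ∃ rs : List (MvPolynomial (Fin n) K), rs.length = k ∧ (∀ r ∈ rs, r ∈ mm n K) ∧
    IsRegular (MvPolynomial (Fin n) K ⧸ I) rs

theorem hasReg_zero {I : Ideal (MvPolynomial (Fin n) K)} (hI : I ≤ mm n K) : HasReg I 0 := by
  refine ⟨[], rfl, by simp, ?_⟩
  have : Nontrivial (MvPolynomial (Fin n) K ⧸ I) :=
    Ideal.Quotient.nontrivial_iff.2 (fun h => mm_prime.ne_top (top_le_iff.1 (h ▸ hI)))
  exact IsRegular.nil _ _

theorem hasReg_succ_iff {I : Ideal (MvPolynomial (Fin n) K)} (hI : I ≤ mm n K)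
    {x : MvPolynomial (Fin n) K} (hx : x ∈ mm n K) (hreg : ∀ g, x * g ∈ I → g ∈ I) (k : ℕ) :
    HasReg (I ⊔ Ideal.span {x}) k ↔ HasReg I (k + 1) := by
  obtain ⟨e⟩ := exists_equiv I x
  constructor
  · rintro ⟨rs, hl, hmem, hrs⟩
    refine ⟨x :: rs, by simp [hl], ?_, ?_⟩
    · intro r hr
      rcases List.mem_cons.1 hr with rfl | hr
      · exact hx
      · exact hmem r hr
    · rw [isRegular_cons_iff]
      exact ⟨(smulRegular_iff I x).2 hreg, (e.isRegular_congr rs).2 hrs⟩
  · intro h
    have h1 : (mm n K) • (⊤ : Submodule (MvPolynomial (Fin n) K) (MvPolynomial (Fin n) K ⧸ I)) < ⊤ := by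
      rw [lt_top_iff_ne_top]
      intro h0
      have h2 : (1 : MvPolynomial (Fin n) K ⧸ I) ∈ (mm n K) •
          (⊤ : Submodule (MvPolynomial (Fin n) K) (MvPolynomial (Fin n) K ⧸ I)) := by
        rw [h0]; trivial
      have h3 : ∀ y ∈ (mm n K) •
          (⊤ : Submodule (MvPolynomial (Fin n) K) (MvPolynomial (Fin n) K ⧸ I)),
          ∃ f ∈ mm n K, Ideal.Quotient.mk I f = y := by
        intro y hy
        induction hy using Submodule.smul_induction_on' with
        | smul r hr y hy =>
          obtain ⟨g, rfl⟩ := Ideal.Quotient.mk_surjective y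
          exact ⟨r * g, Ideal.mul_mem_right _ _ hr, rfl⟩
        | add x hx y hy h1 h2 =>
          obtain ⟨f, hf, rfl⟩ := h1
          obtain ⟨g, hg, rfl⟩ := h2
          exact ⟨f + g, Ideal.add_mem _ hf hg, map_add _ _ _⟩
      obtain ⟨f, hf, hf1⟩ := h3 _ h2
      have h4 : f - 1 ∈ I := by
        rw [← Ideal.Quotient.eq, hf1, map_one]
      have h5 : (1 : MvPolynomial (Fin n) K) ∈ mm n K := by
        have := Ideal.sub_mem _ hf (hI h4)
        simpa using this
      exact mm_prime.ne_top ((Ideal.eq_top_iff_one _).2 h5)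
    obtain ⟨rs, hl, hmem, hrs⟩ := quot_regular (mm n K) (MvPolynomial (Fin n) K ⧸ I) hx
      ((smulRegular_iff I x).2 hreg) h1 h
    exact ⟨rs, hl, hmem, (e.isRegular_congr rs).1 hrs⟩

theorem depth_eq_iff {I : Ideal (MvPolynomial (Fin n) K)} (hI : I ≤ mm n K) (k : ℕ) :
    depth I = k ↔ HasReg I k ∧ ∀ j, HasReg I j → j ≤ k := by
  constructor
  · intro h
    have h1 : ∀ j, HasReg I j → j ≤ k := by
      rintro j ⟨rs, hl, hmem, hrs⟩
      have h2 : ((rs.length : ℕ) : ℕ∞) ≤ depth I := le_iSup₂_of_le rs ⟨hmem, hrs⟩ le_rfl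
      rw [h, hl] at h2
      exact_mod_cast h2
    refine ⟨?_, h1⟩
    rcases Nat.eq_zero_or_pos k with rfl | hk
    · exact hasReg_zero hI
    · by_contra hcon
      have h2 : depth I ≤ ((k - 1 : ℕ) : ℕ∞) := by
        refine iSup₂_le fun rs hrs => ?_
        have h3 : HasReg I rs.length := ⟨rs, rfl, hrs.1, hrs.2⟩
        have h4 := h1 _ h3
        have h5 : rs.length ≠ k := fun h => hcon (h ▸ h3)
        exact_mod_cast (by omega : rs.length ≤ k - 1)
      rw [h] at h2
      have h3 : k ≤ k - 1 := by exact_mod_cast h2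
      omega
  · rintro ⟨⟨rs, hl, hmem, hrs⟩, h2⟩
    apply le_antisymm
    · refine iSup₂_le fun rs hrs => ?_
      exact_mod_cast h2 _ ⟨rs, rfl, hrs.1, hrs.2⟩
    · rw [← hl]
      exact le_iSup₂_of_le rs ⟨hmem, hrs⟩ le_rfl

theorem depth_sup_iff {I : Ideal (MvPolynomial (Fin n) K)} (hI : I ≤ mm n K)
    {x : MvPolynomial (Fin n) K} (hx : x ∈ mm n K) (hreg : ∀ g, x * g ∈ I → g ∈ I) (k : ℕ) :
    depth (I ⊔ Ideal.span {x}) = k ↔ depth I = (k + 1 : ℕ) := by
  have hI' : I ⊔ Ideal.span {x} ≤ mm n K :=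
    sup_le hI ((Ideal.span_singleton_le_iff_mem _).2 hx)
  rw [depth_eq_iff hI', depth_eq_iff hI, hasReg_succ_iff hI hx hreg]
  refine and_congr_right fun _ => ?_
  constructor
  · intro h j hj
    rcases Nat.eq_zero_or_pos j with rfl | hj0
    · exact Nat.zero_le _
    · obtain ⟨i, rfl⟩ : ∃ i, j = i + 1 := ⟨j - 1, by omega⟩
      have := h i ((hasReg_succ_iff hI hx hreg i).2 hj)
      omega
  · intro h j hj
    have := h (j + 1) ((hasReg_succ_iff hI hx hreg j).1 hj)
    omega

/-- adding a squarefree monomial which is a nonzerodivisor lowers the depth by one -/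
theorem depth_insert_iff {S : Set (Finset (Fin n))} {T : Finset (Fin n)} (h0 : Face S ∅)
    (hT : T.Nonempty) (hcone : ∀ A, Face S A → Face S (T ∪ A)) (k : ℕ) :
    depth (SR K (insert T S)) = k ↔ depth (SR K S) = (k + 1 : ℕ) := by
  have h1 : SR K (insert T S) = SR K S ⊔ Ideal.span {∏ i ∈ T, X i} := by
    unfold SR
    rw [Set.image_insert_eq, Ideal.span_insert, sup_comm]
  rw [h1]
  apply depth_sup_iff (SR_le_mm h0)
  · obtain ⟨i, hi⟩ := hT
    exact Ideal.mem_of_dvd _ (Finset.dvd_prod_of_mem _ hi) (Ideal.subset_span ⟨i, rfl⟩)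
  · intro g hg
    rw [prod_mul_mem] at hg
    rw [mem_SR]
    intro m hm hface
    exact hg m hm (hcone _ hface)

/-- killing a set of cone points -/
theorem depth_cone_iff {S : Set (Finset (Fin n))} (h0 : Face S ∅) (T : Finset (Fin n))
    (hcone : ∀ i ∈ T, ∀ A, Face S A → Face S ({i} ∪ A)) : ∀ k : ℕ,
    depth (SR K (S ∪ {s | ∃ i ∈ T, s = {i}})) = k ↔ depth (SR K S) = (k + T.card : ℕ) := by
  induction T using Finset.induction_on with
  | empty =>
    intro k
    simp
  | @insert j T hj ih =>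
    intro k
    have h1 : S ∪ {s | ∃ i ∈ insert j T, s = {i}} = insert {j} (S ∪ {s | ∃ i ∈ T, s = {i}}) := by
      ext s
      simp only [Finset.mem_insert, Set.mem_union, Set.mem_setOf_eq, Set.mem_insert_iff]
      constructor
      · rintro (h | ⟨i, rfl | h, rfl⟩)
        · exact Or.inr (Or.inl h)
        · exact Or.inl rfl
        · exact Or.inr (Or.inr ⟨i, h, rfl⟩)
      · rintro (rfl | h | ⟨i, h, rfl⟩)
        · exact Or.inr ⟨j, Or.inl rfl, rfl⟩
        · exact Or.inl h
        · exact Or.inr ⟨i, Or.inr h, rfl⟩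
    rw [h1, depth_insert_iff, ih (fun i hi => hcone i (Finset.mem_insert_of_mem hi)),
      Finset.card_insert_of_notMem hj]
    · rw [show k + 1 + T.card = k + (T.card + 1) by ring]
    · intro s hs
      rcases hs with hs | ⟨i, hi, rfl⟩
      · exact h0 s hs
      · simp
    · exact Finset.singleton_nonempty j
    · intro A hA s hs
      rcases hs with hs | ⟨i, hi, rfl⟩
      · refine hcone j (Finset.mem_insert_self _ _) A (fun s hs => hA s (Or.inl hs)) s hs
      · intro hsub
        have h2 : i ∈ ({j} : Finset (Fin n)) ∪ A := hsub (Finset.mem_singleton_self i)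
        rcases Finset.mem_union.1 h2 with h3 | h3
        · rw [Finset.mem_singleton] at h3
          exact hj (h3 ▸ hi)
        · exact hA {i} (Or.inr ⟨i, hi, rfl⟩) (Finset.singleton_subset_iff.2 h3)

/-- depth zero -/
theorem depth_eq_zero {I : Ideal (MvPolynomial (Fin n) K)} (hI : I ≤ mm n K)
    {u : MvPolynomial (Fin n) K} (hu : u ∉ I) (hmu : ∀ i, X i * u ∈ I) : depth I = (0 : ℕ) := by
  rw [depth_eq_iff hI]
  refine ⟨hasReg_zero hI, ?_⟩
  rintro j ⟨rs, hl, hmem, hrs⟩
  match rs, hl, hmem, hrs with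
  | [], hl, _, _ => simp at hl; omega
  | r :: rs, _, hmem, hrs =>
    exfalso
    rw [isRegular_cons_iff, smulRegular_iff] at hrs
    apply hu
    apply hrs.1
    have h1 : mm n K ≤ I.colon {u} := by
      rw [Ideal.span_le]
      rintro _ ⟨i, rfl⟩
      rw [SetLike.mem_coe, Submodule.mem_colon_singleton]
      exact hmu i
    have h2 := h1 (hmem r (by simp))
    rwa [Submodule.mem_colon_singleton] at h2

/-- the depth of a polynomial ring modulo variables -/
theorem depth_PP (F : Finset (Fin n)) : depth (PP K F) = (F.card : ℕ) := by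
  have h1 : PP K F = SR K {s | ∃ i, i ∉ F ∧ s = {i}} := by
    unfold PP SR
    congr 1
    ext x
    constructor
    · rintro ⟨i, hi, rfl⟩
      exact ⟨{i}, ⟨i, hi, rfl⟩, by simp⟩
    · rintro ⟨_, ⟨i, hi, rfl⟩, rfl⟩
      exact ⟨i, hi, by simp⟩
  have h0 : Face {s : Finset (Fin n) | ∃ i, i ∉ F ∧ s = {i}} ∅ := by
    rintro s ⟨i, _, rfl⟩
    simp
  have h2 := (depth_cone_iff (K := K) h0 F ?_ 0).1 ?_
  · rw [h1, h2, zero_add]
  · intro i hi A hA s hs
    obtain ⟨j, hj, rfl⟩ := hs
    intro hsub
    rcases Finset.mem_union.1 (hsub (Finset.mem_singleton_self j)) with h3 | h3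
    · rw [Finset.mem_singleton] at h3
      exact hj (h3 ▸ hi)
    · exact hA {j} ⟨j, hj, rfl⟩ (Finset.singleton_subset_iff.2 h3)
  · have h3 : SR K ({s : Finset (Fin n) | ∃ i, i ∉ F ∧ s = {i}} ∪ {s | ∃ i ∈ F, s = {i}}) = mm n K := by
      unfold SR mm
      congr 1
      ext x
      constructor
      · rintro ⟨_, (⟨i, hi, rfl⟩ | ⟨i, hi, rfl⟩), rfl⟩
        · exact ⟨i, by simp⟩
        · exact ⟨i, by simp⟩
      · rintro ⟨i, rfl⟩
        by_cases hi : i ∈ F
        · exact ⟨{i}, Or.inr ⟨i, hi, rfl⟩, by simp⟩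
        · exact ⟨{i}, Or.inl ⟨i, hi, rfl⟩, by simp⟩
    rw [h3]
    refine depth_eq_zero le_rfl (u := 1) ?_ ?_
    · intro h
      exact mm_prime.ne_top ((Ideal.eq_top_iff_one _).2 h)
    · intro i
      rw [mul_one]
      exact Ideal.subset_span ⟨i, rfl⟩

/-- the coefficient of a variable in the sum of variables -/
theorem coeff_sum_X (A : Finset (Fin n)) (j : Fin n) :
    coeff (Finsupp.single j 1) (∑ i ∈ A, X i : MvPolynomial (Fin n) K) = if j ∈ A then 1 else 0 := by
  classical
  rw [coeff_sum]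
  have h2 : ∀ l : Fin n, coeff (Finsupp.single j 1) (X l : MvPolynomial (Fin n) K) =
      if l = j then 1 else 0 := by
    intro l
    rw [MvPolynomial.coeff_X']
    by_cases hlj : l = j
    · simp [hlj]
    · rw [if_neg hlj, if_neg]
      intro h3
      exact hlj (Finsupp.single_left_injective one_ne_zero h3)
  rw [Finset.sum_congr rfl (fun l _ => h2 l)]
  simp

/-- the sum of the variables is a nonzerodivisor when all facets are nonempty -/
theorem sum_regular {S : Set (Finset (Fin n))} (h : ∀ F, Facet S F → F.Nonempty)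
    (g : MvPolynomial (Fin n) K) (hg : (∑ i, X i) * g ∈ SR K S) : g ∈ SR K S := by
  refine mem_of_forall fun F hF => ?_
  refine ((PP_prime F).mem_or_mem (SR_le_PP hF.1 hg)).resolve_left ?_
  intro h1
  obtain ⟨j, hj⟩ := h F hF
  rw [mem_PP] at h1
  refine h1 (Finsupp.single j 1) ?_ ?_
  · rw [mem_support_iff, coeff_sum_X]
    simp
  · rw [Finsupp.support_single_ne_zero _ one_ne_zero]
    simpa using hj

theorem one_le_depth {S : Set (Finset (Fin n))} (h0 : Face S ∅) (h : ∀ F, Facet S F → F.Nonempty)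
    {b : ℕ} (hb : depth (SR K S) = b) : 1 ≤ b := by
  rw [depth_eq_iff (SR_le_mm h0)] at hb
  apply hb.2
  have hx : (∑ i, X i : MvPolynomial (Fin n) K) ∈ mm n K :=
    Ideal.sum_mem _ fun i _ => Ideal.subset_span ⟨i, rfl⟩
  have h1 := (hasReg_succ_iff (SR_le_mm h0) hx (sum_regular h) 0).1 (hasReg_zero
    (sup_le (SR_le_mm h0) ((Ideal.span_singleton_le_iff_mem _).2 hx)))
  simpa using h1

/-- a complex which is the disjoint union of two pieces has depth one -/
theorem depth_disconnected {S : Set (Finset (Fin n))} (A : Finset (Fin n))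
    (hA : ∀ i ∈ A, ∀ j ∉ A, ¬ Face S {i, j}) {i j : Fin n} (hi : i ∈ A) (hj : j ∉ A)
    (hSi : Face S {i}) (hSj : Face S {j}) : depth (SR K S) = (1 : ℕ) := by
  classical
  have h0 : Face S ∅ := hSi.mono (Finset.empty_subset _)
  have hne : ∀ F, Facet S F → F.Nonempty := by
    intro F hF
    rw [Finset.nonempty_iff_ne_empty]
    rintro rfl
    have := hF.2 _ hSi (Finset.empty_subset _)
    exact Finset.singleton_ne_empty i this
  have hx : (∑ i, X i : MvPolynomial (Fin n) K) ∈ mm n K :=
    Ideal.sum_mem _ fun i _ => Ideal.subset_span ⟨i, rfl⟩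
  have hXX : ∀ i ∈ A, ∀ j ∉ A, (X i * X j : MvPolynomial (Fin n) K) ∈ SR K S := by
    intro i hi j hj
    have hij : i ≠ j := fun h => hj (h ▸ hi)
    rw [← Finset.prod_pair hij]
    exact prod_mem_SR (hA i hi j hj)
  refine (depth_sup_iff (SR_le_mm h0) hx (sum_regular hne) 0).1 ?_
  refine depth_eq_zero (sup_le (SR_le_mm h0) ((Ideal.span_singleton_le_iff_mem _).2 hx))
    (u := ∑ i ∈ A, X i) ?_ ?_
  · intro h
    obtain ⟨a, ha, b, hb, hab⟩ := Submodule.mem_sup.1 h
    obtain ⟨c, rfl⟩ := Ideal.mem_span_singleton'.1 hb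
    have key : ∀ l, Face S {l} → (if l ∈ A then (1 : K) else 0) = coeff 0 c := by
      intro l hl
      have h1 := congrArg (coeff (Finsupp.single l 1)) hab
      rw [coeff_add, coeff_sum_X] at h1
      have h2 : coeff (Finsupp.single l 1) a = 0 := by
        by_contra h3
        refine (mem_SR.1 ha) _ (mem_support_iff.2 h3) ?_
        rwa [Finsupp.support_single_ne_zero _ one_ne_zero]
      rw [h2, zero_add] at h1
      rw [← h1]
      rw [Finset.mul_sum, coeff_sum, Finset.sum_eq_single l]
      · rw [coeff_mul_X']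
        simp
      · intro k _ hk
        rw [coeff_mul_X', if_neg]
        rw [Finsupp.support_single_ne_zero _ one_ne_zero]
        simpa using hk
      · intro h; exact absurd (Finset.mem_univ _) h
    have e1 := key i hSi
    have e2 := key j hSj
    rw [if_pos hi] at e1
    rw [if_neg hj] at e2
    exact one_ne_zero (e1.trans e2.symm)
  · intro l
    by_cases hl : l ∈ A
    · have h1 : X l * ∑ i ∈ A, X i = -(X l * ∑ i ∈ Aᶜ, X i) + X l * ∑ i, (X i : MvPolynomial (Fin n) K) := by
        rw [← Finset.sum_add_sum_compl A]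
        ring
      rw [h1]
      refine Ideal.add_mem _ (Ideal.mem_sup_left (neg_mem ?_)) (Ideal.mem_sup_right ?_)
      · rw [Finset.mul_sum]
        exact Ideal.sum_mem _ fun k hk => hXX l hl k (Finset.mem_compl.1 hk)
      · exact Ideal.mul_mem_left _ _ (Ideal.mem_span_singleton_self _)
    · refine Ideal.mem_sup_left ?_
      rw [Finset.mul_sum]
      refine Ideal.sum_mem _ fun k hk => ?_
      rw [mul_comm]
      exact hXX k hk l hl

/-- the depth is at most the size of each facet -/
theorem depth_le_card {S : Set (Finset (Fin n))} {F : Finset (Fin n)} (hF : Facet S F) {b : ℕ}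
    (hb : depth (SR K S) = b) : b ≤ F.card := by
  have h0 : Face S ∅ := hF.1.mono (Finset.empty_subset _)
  rw [depth_eq_iff (SR_le_mm h0)] at hb
  obtain ⟨⟨rs, hl, hmem, hrs⟩, -⟩ := hb
  have hp := mm_prime (n := n) (K := K)
  have h1 := length_le_dim (mm n K) rs (MvPolynomial (Fin n) K ⧸ SR K S) hmem hrs.1 (PP K F)
    (assoc_iff.2 ⟨F, hF, rfl⟩) (PP_le_mm F)
  rw [hl, dim_PP] at h1
  exact_mod_cast h1

end depth

end partC

/-! ### The v-number of squarefree monomial ideals, and the family -/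

section partD

open MvPolynomial

section vnumber

variable {n : ℕ} {K : Type*} [Field K]

theorem isHomogeneous_prod_X (A : Finset (Fin n)) :
    (∏ i ∈ A, X i : MvPolynomial (Fin n) K).IsHomogeneous A.card := by
  have h := IsHomogeneous.prod A (fun i => (X i : MvPolynomial (Fin n) K))
    (fun _ => 1) (fun i _ => isHomogeneous_X _ _)
  simpa using h

/-- upper bound for the v-number -/
theorem vNumber_le {S : Set (Finset (Fin n))} {F A : Finset (Fin n)} (hF : Face S F)
    (hAF : A ⊆ F) (h : ∀ j, j ∉ F → ¬ Face S (insert j A)) :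
    vNumber (SR K S) ≤ (A.card : ℕ) := by
  refine iInf₂_le _ ⟨∏ i ∈ A, X i, isHomogeneous_prod_X A, ?_⟩
  rw [mem_assoc_iff]
  exact ⟨by rw [colon_eq_PP hAF hF h]; exact PP_prime F, _, rfl⟩

/-- a form of degree `d` with prime colon ideal gives a face of size at most `d` -/
theorem exists_of_colon {S : Set (Finset (Fin n))} {f : MvPolynomial (Fin n) K} {d : ℕ}
    (hf : f.IsHomogeneous d)
    (hp : (SR K S).colon {f} ∈ associatedPrimes (MvPolynomial (Fin n) K)
      (MvPolynomial (Fin n) K ⧸ SR K S)) :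
    ∃ F A : Finset (Fin n), Face S F ∧ A ⊆ F ∧ A.card ≤ d ∧ ∀ j, j ∉ F → ¬ Face S (insert j A) := by
  obtain ⟨F, hF, hpF⟩ := assoc_iff.1 hp
  have hfI : f ∉ SR K S := by
    intro h
    apply (PP_prime (K := K) F).ne_top
    rw [← hpF, Ideal.eq_top_iff_one, Submodule.mem_colon_singleton, one_smul]
    exact h
  rw [mem_SR] at hfI
  push Not at hfI
  obtain ⟨m, hm, hface⟩ := hfI
  have hj : ∀ j, j ∉ F → ¬ Face S (insert j m.support) := by
    intro j hj
    have h1 : (X j : MvPolynomial (Fin n) K) ∈ (SR K S).colon {f} := by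
      rw [hpF]
      exact Ideal.subset_span ⟨j, hj, rfl⟩
    rw [Submodule.mem_colon_singleton, smul_eq_mul] at h1
    have h2 : (∏ i ∈ ({j} : Finset (Fin n)), X i) * f ∈ SR K S := by simpa using h1
    have h3 := prod_mul_mem.1 h2 m hm
    rwa [← Finset.insert_eq] at h3
  refine ⟨F, m.support, hF.1, ?_, ?_, hj⟩
  · intro j hjm
    by_contra hjF
    apply hj j hjF
    rwa [Finset.insert_eq_of_mem hjm]
  · have h1 : m.degree = d := by
      have := hf (mem_support_iff.1 hm)
      rw [Finsupp.degree_eq_weight_one]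
      exact this
    rw [← h1, Finsupp.degree]
    rw [Finset.card_eq_sum_ones]
    refine Finset.sum_le_sum fun i hi => ?_
    have := Finsupp.mem_support_iff.1 hi
    omega

theorem exists_of_vNumber_le {S : Set (Finset (Fin n))} {d : ℕ} (h : vNumber (SR K S) ≤ d) :
    ∃ F A : Finset (Fin n), Face S F ∧ A ⊆ F ∧ A.card ≤ d ∧ ∀ j, j ∉ F → ¬ Face S (insert j A) := by
  by_contra hcon
  have h1 : ((d + 1 : ℕ) : ℕ∞) ≤ vNumber (SR K S) := by
    refine le_iInf₂ fun d' hd' => ?_
    obtain ⟨f, hf, hp⟩ := hd'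
    by_contra hlt
    apply hcon
    obtain ⟨F, A, hF, hAF, hA, hj⟩ := exists_of_colon hf hp
    refine ⟨F, A, hF, hAF, ?_, hj⟩
    have h2 : ¬ (d + 1 ≤ d') := fun hh => hlt (by exact_mod_cast hh)
    omega
  have h2 := h1.trans h
  have h3 : d + 1 ≤ d := by exact_mod_cast h2
  omega

/-- the combinatorial formula for the v-number -/
theorem vNumber_eq {S : Set (Finset (Fin n))} {k : ℕ}
    (h1 : ∃ F A : Finset (Fin n), Face S F ∧ A ⊆ F ∧ A.card = k ∧
      ∀ j, j ∉ F → ¬ Face S (insert j A))
    (h2 : ∀ F A : Finset (Fin n), Face S F → A ⊆ F → (∀ j, j ∉ F → ¬ Face S (insert j A)) →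
      k ≤ A.card) : vNumber (SR K S) = (k : ℕ) := by
  apply le_antisymm
  · obtain ⟨F, A, hF, hAF, hA, hj⟩ := h1
    rw [← hA]
    exact vNumber_le hF hAF hj
  · refine le_iInf₂ fun d hd => ?_
    obtain ⟨f, hf, hp⟩ := hd
    obtain ⟨F, A, hF, hAF, hA, hj⟩ := exists_of_colon hf hp
    exact_mod_cast (h2 F A hF hAF hj).trans hA

theorem vNumber_le_card {S : Set (Finset (Fin n))} {F : Finset (Fin n)} (hF : Facet S F) :
    vNumber (SR K S) ≤ (F.card : ℕ) :=
  vNumber_le hF.1 (Finset.Subset.refl _) fun j hj hface =>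
    hj (by rw [← hF.2 _ hface (Finset.subset_insert j F)]; exact Finset.mem_insert_self _ _)

/-- if the v-number is zero, the ideal is generated by variables -/
theorem eq_PP_of_vNumber_eq_zero {S : Set (Finset (Fin n))} (h : vNumber (SR K S) = 0) :
    ∃ F, Facet S F ∧ SR K S = PP K F ∧ ∀ G, Facet S G → G = F := by
  obtain ⟨F, A, hF, hAF, hA, hj⟩ := exists_of_vNumber_le (K := K) (S := S) (d := 0) (by rw [h]; simp)
  have hA0 : A = ∅ := Finset.card_eq_zero.1 (by omega)
  subst hA0
  have hsub : ∀ G, Face S G → G ⊆ F := by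
    intro G hG j hjG
    by_contra hjF
    apply hj j hjF
    exact hG.mono (by simpa using hjG)
  have hFF : Facet S F := ⟨hF, fun G hG hFG => Finset.Subset.antisymm (hsub G hG) hFG⟩
  have huniq : ∀ G, Facet S G → G = F := fun G hG => (hG.2 F hF (hsub G hG.1)).symm
  refine ⟨F, hFF, le_antisymm (SR_le_PP hF) ?_, huniq⟩
  intro g hg
  refine mem_of_forall fun G hG => ?_
  rw [huniq G hG]
  exact hg

end vnumber

section family

variable {n : ℕ} (lab : Fin n → (Bool × Bool) ⊕ Bool)

/-- the label classes -/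
def cls (l : (Bool × Bool) ⊕ Bool) : Finset (Fin n) := Finset.univ.filter (fun i => lab i = l)

theorem mem_cls {l : (Bool × Bool) ⊕ Bool} {i : Fin n} : i ∈ cls lab l ↔ lab i = l := by
  simp [cls]

/-- the minimal nonfaces on the two coloured blocks -/
def S0 : Set (Finset (Fin n)) :=
  {s | (∃ b, s = cls lab (Sum.inl (b, true))) ∨
    ∃ i j c c', lab i = Sum.inl (true, c) ∧ lab j = Sum.inl (false, c') ∧ s = {i, j}}

/-- the minimal nonfaces of the family -/
def S1 : Set (Finset (Fin n)) := insert (cls lab (Sum.inr true)) (S0 lab)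

/-- the facets of the family -/
def Fs (b : Bool) (i z : Fin n) : Finset (Fin n) :=
  (cls lab (Sum.inl (b, true))).erase i ∪ (cls lab (Sum.inl (b, false)) ∪
    ((cls lab (Sum.inr true)).erase z ∪ cls lab (Sum.inr false)))

theorem mem_Fs {b : Bool} {i z j : Fin n} : j ∈ Fs lab b i z ↔
    (lab j = Sum.inl (b, true) ∧ j ≠ i) ∨ lab j = Sum.inl (b, false) ∨
      (lab j = Sum.inr true ∧ j ≠ z) ∨ lab j = Sum.inr false := by
  simp only [Fs, Finset.mem_union, Finset.mem_erase, mem_cls]
  tauto

variable {lab} {k z w : ℕ} {e : Bool → ℕ} (hC : ∀ b, (cls lab (Sum.inl (b, true))).card = k + 1)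
  (hE : ∀ b, (cls lab (Sum.inl (b, false))).card = e b)
  (hZ : (cls lab (Sum.inr true)).card = z + 1) (hW : (cls lab (Sum.inr false)).card = w)

include hC hE hZ hW in
theorem card_Fs {b : Bool} {i z' : Fin n} (hi : i ∈ cls lab (Sum.inl (b, true)))
    (hz : z' ∈ cls lab (Sum.inr true)) : (Fs lab b i z').card = k + e b + z + w := by
  unfold Fs
  rw [Finset.card_union_of_disjoint, Finset.card_union_of_disjoint,
    Finset.card_union_of_disjoint, Finset.card_erase_of_mem hi, Finset.card_erase_of_mem hz,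
    hC, hE, hZ, hW]
  · omega
  · rw [Finset.disjoint_left]
    intro x hx hx'
    have h1 := (mem_cls lab).1 (Finset.mem_of_mem_erase hx)
    have h2 := (mem_cls lab).1 hx'
    rw [h1] at h2
    cases h2
  · rw [Finset.disjoint_left]
    intro x hx hx'
    have h1 := (mem_cls lab).1 hx
    rcases Finset.mem_union.1 hx' with hx' | hx'
    · have h2 := (mem_cls lab).1 (Finset.mem_of_mem_erase hx')
      rw [h1] at h2
      cases h2
    · have h2 := (mem_cls lab).1 hx'
      rw [h1] at h2
      cases h2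
  · rw [Finset.disjoint_left]
    intro x hx hx'
    have h1 := (mem_cls lab).1 (Finset.mem_of_mem_erase hx)
    rcases Finset.mem_union.1 hx' with hx' | hx'
    · have h2 := (mem_cls lab).1 hx'
      rw [h1] at h2
      cases h2
    · rcases Finset.mem_union.1 hx' with hx' | hx'
      · have h2 := (mem_cls lab).1 (Finset.mem_of_mem_erase hx')
        rw [h1] at h2
        cases h2
      · have h2 := (mem_cls lab).1 hx'
        rw [h1] at h2
        cases h2

theorem face_S0_union {T A : Finset (Fin n)} (hT : ∀ i ∈ T, ∃ c, lab i = Sum.inr c)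
    (hA : Face (S0 lab) A) (_hk : ∀ b, (cls lab (Sum.inl (b, true))).card = k + 1) :
    Face (S0 lab) (T ∪ A) := by
  intro s hs hsub
  refine hA s hs fun x hx => ?_
  refine (Finset.mem_union.1 (hsub hx)).resolve_left fun hxT => ?_
  obtain ⟨c, hc⟩ := hT x hxT
  rcases hs with ⟨b, rfl⟩ | ⟨i, j, c1, c2, hi, hj, rfl⟩
  · rw [mem_cls] at hx
    rw [hc] at hx
    cases hx
  · rcases Finset.mem_insert.1 hx with rfl | hx
    · rw [hc] at hi; cases hi
    · rw [Finset.mem_singleton] at hx
      subst hx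
      rw [hc] at hj; cases hj

include hC in
theorem face_S0_single (hk : 1 ≤ k) (i : Fin n) : Face (S0 lab) {i} := by
  rintro s (⟨b, rfl⟩ | ⟨x, y, c1, c2, hx, hy, rfl⟩) hsub
  · have := Finset.card_le_card hsub
    rw [hC, Finset.card_singleton] at this
    omega
  · have h1 := Finset.mem_singleton.1 (hsub (Finset.mem_insert_self x {y}))
    have h2 := Finset.mem_singleton.1 (hsub (Finset.mem_insert_of_mem (Finset.mem_singleton_self y)))
    rw [h1] at hx
    rw [h2] at hy
    rw [hx] at hy
    simp at hy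

variable {K : Type*} [Field K]

include hC hZ hW in
theorem depth_S1 (hk : 1 ≤ k) : depth (SR K (S1 lab)) = (z + w + 1 : ℕ) := by
  obtain ⟨i1, hi1⟩ : (cls lab (Sum.inl (true, true))).Nonempty := by
    rw [← Finset.card_pos, hC]; omega
  obtain ⟨i2, hi2⟩ : (cls lab (Sum.inl (false, true))).Nonempty := by
    rw [← Finset.card_pos, hC]; omega
  have h0 : Face (S0 lab) ∅ := (face_S0_single hC hk i1).mono (Finset.empty_subset _)
  unfold S1
  rw [depth_insert_iff h0 (by rw [← Finset.card_pos, hZ]; omega)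
    (fun A hA => face_S0_union (fun i hi => ⟨true, (mem_cls lab).1 hi⟩) hA hC)]
  have hT : ∀ i ∈ cls lab (Sum.inr true) ∪ cls lab (Sum.inr false), ∃ c, lab i = Sum.inr c := by
    intro i hi
    rcases Finset.mem_union.1 hi with hi | hi
    · exact ⟨true, (mem_cls lab).1 hi⟩
    · exact ⟨false, (mem_cls lab).1 hi⟩
  have h1 := (depth_cone_iff (K := K) h0 (cls lab (Sum.inr true) ∪ cls lab (Sum.inr false))
    (fun i hi A hA => face_S0_union (fun j hj => by
      rw [Finset.mem_singleton] at hj
      subst hj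
      exact hT _ hi) hA hC) 1).1 ?_
  · rw [h1, Finset.card_union_of_disjoint, hZ, hW]
    · congr 1
      omega
    · rw [Finset.disjoint_left]
      intro x hx hx'
      rw [mem_cls] at hx hx'
      rw [hx] at hx'
      cases hx'
  · have hsing : ∀ i, (∀ c, lab i ≠ Sum.inr c) → Face (S0 lab ∪ {s | ∃ i ∈
        cls lab (Sum.inr true) ∪ cls lab (Sum.inr false), s = {i}}) {i} := by
      rintro i hi s (hs | ⟨j, hj, rfl⟩) hsub
      · exact face_S0_single hC hk i s hs hsub
      · rw [Finset.singleton_subset_iff, Finset.mem_singleton] at hsub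
        subst hsub
        obtain ⟨c, hc⟩ := hT _ hj
        exact hi c hc
    have hA : ∀ i ∈ Finset.univ.filter (fun i => ∃ c, lab i = Sum.inl (true, c)),
        ∀ j ∉ Finset.univ.filter (fun i => ∃ c, lab i = Sum.inl (true, c)),
        ¬ Face (S0 lab ∪ {s | ∃ i ∈ cls lab (Sum.inr true) ∪ cls lab (Sum.inr false), s = {i}})
          {i, j} := by
      intro i hi j hj hface
      simp only [Finset.mem_filter, Finset.mem_univ, true_and] at hi hj
      obtain ⟨c, hc⟩ := hi
      rcases hlj : lab j with ⟨b, c'⟩ | c'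
      · rcases b with _ | _
        · exact hface {i, j} (Or.inl (Or.inr ⟨i, j, c, c', hc, hlj, rfl⟩)) (Finset.Subset.refl _)
        · exact hj ⟨c', hlj⟩
      · refine hface {j} (Or.inr ⟨j, ?_, rfl⟩) (by simp)
        rw [Finset.mem_union, mem_cls, mem_cls, hlj]
        cases c' <;> simp
    refine depth_disconnected _ hA (i := i1) (j := i2) ?_ ?_ (hsing i1 ?_) (hsing i2 ?_)
    · simp only [Finset.mem_filter, Finset.mem_univ, true_and]
      exact ⟨true, (mem_cls lab).1 hi1⟩
    · simp only [Finset.mem_filter, Finset.mem_univ, true_and]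
      rintro ⟨c, hc⟩
      rw [(mem_cls lab).1 hi2] at hc
      simp at hc
    · intro c hc
      rw [(mem_cls lab).1 hi1] at hc
      cases hc
    · intro c hc
      rw [(mem_cls lab).1 hi2] at hc
      cases hc

/-- what it means to be a face of the family -/
theorem face_S1_iff {A : Finset (Fin n)} : Face (S1 lab) A ↔
    (∀ b, ¬ cls lab (Sum.inl (b, true)) ⊆ A) ∧ ¬ cls lab (Sum.inr true) ⊆ A ∧
      ∀ i ∈ A, ∀ j ∈ A, ∀ c c', lab i = Sum.inl (true, c) → lab j = Sum.inl (false, c') → False := by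
  constructor
  · intro h
    refine ⟨fun b => h _ (Or.inr (Or.inl ⟨b, rfl⟩)), h _ (Or.inl rfl), ?_⟩
    intro i hi j hj c c' hic hjc
    refine h {i, j} (Or.inr (Or.inr ⟨i, j, c, c', hic, hjc, rfl⟩)) ?_
    intro x hx
    rcases Finset.mem_insert.1 hx with rfl | hx
    · exact hi
    · rw [Finset.mem_singleton.1 hx]; exact hj
  · rintro ⟨h1, h2, h3⟩ s (rfl | (⟨b, rfl⟩ | ⟨i, j, c, c', hi, hj, rfl⟩)) hsub
    · exact h2 hsub
    · exact h1 b hsub
    · exact h3 i (hsub (by simp)) j (hsub (by simp)) c c' hi hj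

include hC in
theorem face_Fs {b : Bool} {i z' : Fin n} (hi : i ∈ cls lab (Sum.inl (b, true)))
    (hz : z' ∈ cls lab (Sum.inr true)) : Face (S1 lab) (Fs lab b i z') := by
  rw [face_S1_iff]
  rw [mem_cls] at hi hz
  refine ⟨?_, ?_, ?_⟩
  · intro b' hsub
    by_cases hb : b' = b
    · subst hb
      have h1 := hsub ((mem_cls lab).2 hi)
      rw [mem_Fs, hi] at h1
      simp at h1
    · obtain ⟨x, hx⟩ : (cls lab (Sum.inl (b', true))).Nonempty := by
        rw [← Finset.card_pos, hC]; omega
      have h1 := hsub hx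
      rw [mem_cls] at hx
      rw [mem_Fs, hx] at h1
      simp [hb] at h1
  · intro hsub
    have h1 := hsub ((mem_cls lab).2 hz)
    rw [mem_Fs, hz] at h1
    simp at h1
  · intro x hx y hy c c' hxc hyc
    rw [mem_Fs, hxc] at hx
    rw [mem_Fs, hyc] at hy
    simp only [Sum.inl.injEq, Prod.mk.injEq, reduceCtorEq, false_and, or_false] at hx hy
    have h1 : true = b := by tauto
    have h2 : false = b := by tauto
    rw [← h1] at h2
    cases h2

theorem exists_Fs {A : Finset (Fin n)} (hA : Face (S1 lab) A) :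
    ∃ b i z', i ∈ cls lab (Sum.inl (b, true)) ∧ z' ∈ cls lab (Sum.inr true) ∧ A ⊆ Fs lab b i z' := by
  rw [face_S1_iff] at hA
  obtain ⟨h1, h2, h3⟩ := hA
  obtain ⟨z', hz, hzA⟩ := Finset.not_subset.1 h2
  have key : ∃ b, ∀ j ∈ A, ∀ b' c, lab j = Sum.inl (b', c) → b' = b := by
    by_cases ht : ∃ j ∈ A, ∃ c, lab j = Sum.inl (true, c)
    · obtain ⟨j, hj, c, hc⟩ := ht
      refine ⟨true, fun j' hj' b' c' hc' => ?_⟩
      rcases b' with _ | _
      · exact (h3 j hj j' hj' c c' hc hc').elim
      · rfl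
    · refine ⟨false, fun j' hj' b' c' hc' => ?_⟩
      rcases b' with _ | _
      · rfl
      · exact absurd ⟨j', hj', c', hc'⟩ ht
  obtain ⟨b, hb⟩ := key
  obtain ⟨i, hi, hiA⟩ := Finset.not_subset.1 (h1 b)
  refine ⟨b, i, z', hi, hz, fun j hj => ?_⟩
  rw [mem_Fs]
  rcases hlj : lab j with ⟨b', c⟩ | c
  · have := hb j hj b' c hlj
    subst this
    rcases c with _ | _
    · exact Or.inr (Or.inl rfl)
    · exact Or.inl ⟨rfl, fun h => hiA (h ▸ hj)⟩
  · rcases c with _ | _
    · exact Or.inr (Or.inr (Or.inr rfl))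
    · exact Or.inr (Or.inr (Or.inl ⟨rfl, fun h => hzA (h ▸ hj)⟩))

include hC in
/-- the form attached to a facet -/
theorem dom_Fs (hk : 1 ≤ k) {b : Bool} {i z' : Fin n} (hi : i ∈ cls lab (Sum.inl (b, true)))
    (hz : z' ∈ cls lab (Sum.inr true)) (j : Fin n) (hj : j ∉ Fs lab b i z') :
    ¬ Face (S1 lab) (insert j ((cls lab (Sum.inl (b, true))).erase i ∪
      (cls lab (Sum.inr true)).erase z')) := by
  rw [face_S1_iff]
  rintro ⟨h1, h2, h3⟩
  rw [mem_Fs] at hj
  push Not at hj
  obtain ⟨hj1, hj2, hj3, hj4⟩ := hj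
  rcases hlj : lab j with ⟨b', c⟩ | c
  · by_cases hb : b' = b
    · subst hb
      rcases c with _ | _
      · exact hj2 hlj
      · have hji := hj1 hlj
        subst hji
        apply h1 b'
        intro x hx
        by_cases hxj : x = j
        · exact Finset.mem_insert.2 (Or.inl hxj)
        · exact Finset.mem_insert_of_mem (Finset.mem_union_left _ (Finset.mem_erase.2 ⟨hxj, hx⟩))
    · obtain ⟨i', hi'⟩ : ((cls lab (Sum.inl (b, true))).erase i).Nonempty := by
        rw [← Finset.card_pos, Finset.card_erase_of_mem hi, hC]; omega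
      have hli : lab i' = Sum.inl (b, true) := (mem_cls lab).1 (Finset.mem_of_mem_erase hi')
      have hi'' : i' ∈ insert j ((cls lab (Sum.inl (b, true))).erase i ∪
          (cls lab (Sum.inr true)).erase z') :=
        Finset.mem_insert_of_mem (Finset.mem_union_left _ hi')
      rcases b' with _ | _
      · have hbt : b = true := by
          cases b
          · exact absurd rfl hb
          · rfl
        subst hbt
        exact h3 i' hi'' j (Finset.mem_insert_self _ _) true c hli hlj
      · have hbt : b = false := by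
          cases b
          · rfl
          · exact absurd rfl hb
        subst hbt
        exact h3 j (Finset.mem_insert_self _ _) i' hi'' c true hlj hli
  · rcases c with _ | _
    · exact hj4 hlj
    · have hjz := hj3 hlj
      subst hjz
      apply h2
      intro x hx
      by_cases hxj : x = j
      · exact Finset.mem_insert.2 (Or.inl hxj)
      · exact Finset.mem_insert_of_mem (Finset.mem_union_right _ (Finset.mem_erase.2 ⟨hxj, hx⟩))

include hC hZ in
/-- the lower bound -/
theorem lower_S1 {F A : Finset (Fin n)} (hF : Face (S1 lab) F) (hAF : A ⊆ F)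
    (h : ∀ j, j ∉ F → ¬ Face (S1 lab) (insert j A)) (hk : 1 ≤ k) : k + z ≤ A.card := by
  have hA : Face (S1 lab) A := hF.mono hAF
  rw [face_S1_iff] at hF hA
  obtain ⟨h1, h2, h3⟩ := hF
  obtain ⟨g1, g2, g3⟩ := hA
  obtain ⟨z', hz, hzF⟩ := Finset.not_subset.1 h2
  have hlz := (mem_cls lab).1 hz
  -- the part of `Z`
  have hZA : (cls lab (Sum.inr true)).erase z' ⊆ A := by
    have h4 := h z' hzF
    rw [face_S1_iff] at h4
    by_contra hcon
    apply h4
    refine ⟨?_, ?_, ?_⟩
    · intro b hsub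
      apply g1 b
      intro x hx
      refine (Finset.mem_insert.1 (hsub hx)).resolve_left ?_
      rintro rfl
      rw [mem_cls, hlz] at hx
      cases hx
    · intro hsub
      apply hcon
      intro x hx
      obtain ⟨hx1, hx2⟩ := Finset.mem_erase.1 hx
      exact (Finset.mem_insert.1 (hsub hx2)).resolve_left hx1
    · intro x hx y hy c c' hxc hyc
      have hx' : x ∈ A := by
        refine (Finset.mem_insert.1 hx).resolve_left ?_
        rintro rfl
        rw [hlz] at hxc; cases hxc
      have hy' : y ∈ A := by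
        refine (Finset.mem_insert.1 hy).resolve_left ?_
        rintro rfl
        rw [hlz] at hyc; cases hyc
      exact g3 x hx' y hy' c c' hxc hyc
  -- the part of the cores
  have hcore : ∀ b, (∃ i ∈ cls lab (Sum.inl (b, true)), (cls lab (Sum.inl (b, true))).erase i ⊆ A) ∨
      ∃ x ∈ A, ∃ c, lab x = Sum.inl (!b, c) := by
    intro b
    obtain ⟨i, hi, hiF⟩ := Finset.not_subset.1 (h1 b)
    have hli := (mem_cls lab).1 hi
    by_contra hcon
    push Not at hcon
    obtain ⟨hcon1, hcon2⟩ := hcon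
    apply h i hiF
    rw [face_S1_iff]
    refine ⟨?_, ?_, ?_⟩
    · intro b' hsub
      by_cases hb : b' = b
      · subst hb
        apply hcon1 i hi
        intro x hx
        obtain ⟨hx1, hx2⟩ := Finset.mem_erase.1 hx
        exact (Finset.mem_insert.1 (hsub hx2)).resolve_left hx1
      · apply g1 b'
        intro x hx
        refine (Finset.mem_insert.1 (hsub hx)).resolve_left ?_
        rintro rfl
        rw [mem_cls, hli] at hx
        simp only [Sum.inl.injEq, Prod.mk.injEq, and_true] at hx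
        exact hb hx.symm
    · intro hsub
      apply g2
      intro x hx
      refine (Finset.mem_insert.1 (hsub hx)).resolve_left ?_
      rintro rfl
      rw [mem_cls, hli] at hx
      cases hx
    · intro x hx y hy c c' hxc hyc
      rcases Finset.mem_insert.1 hx with hxi | hxA
      · subst hxi
        rw [hli] at hxc
        simp only [Sum.inl.injEq, Prod.mk.injEq] at hxc
        have hbt : b = true := hxc.1
        subst hbt
        rcases Finset.mem_insert.1 hy with hyi | hyA
        · subst hyi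
          rw [hli] at hyc
          simp at hyc
        · exact hcon2 y hyA c' (by simpa using hyc)
      · rcases Finset.mem_insert.1 hy with hyi | hyA
        · subst hyi
          rw [hli] at hyc
          simp only [Sum.inl.injEq, Prod.mk.injEq] at hyc
          have hbt : b = false := hyc.1
          subst hbt
          exact hcon2 x hxA c (by simpa using hxc)
        · exact g3 x hxA y hyA c c' hxc hyc
  have hfin : ∃ b, ∃ i ∈ cls lab (Sum.inl (b, true)), (cls lab (Sum.inl (b, true))).erase i ⊆ A := by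
    rcases hcore true with ⟨i, hi, h5⟩ | ⟨x, hx, c, hxc⟩
    · exact ⟨true, i, hi, h5⟩
    · rcases hcore false with ⟨i, hi, h5⟩ | ⟨y, hy, c', hyc⟩
      · exact ⟨false, i, hi, h5⟩
      · exact (g3 y hy x hx c' c (by simpa using hyc) (by simpa using hxc)).elim
  obtain ⟨b, i, hi, hsub⟩ := hfin
  have hdisj : Disjoint ((cls lab (Sum.inl (b, true))).erase i) ((cls lab (Sum.inr true)).erase z') := by
    rw [Finset.disjoint_left]
    intro x hx hx'
    have hx1 := (mem_cls lab).1 (Finset.mem_of_mem_erase hx)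
    have hx2 := (mem_cls lab).1 (Finset.mem_of_mem_erase hx')
    rw [hx1] at hx2
    cases hx2
  have h5 := Finset.card_le_card (Finset.union_subset hsub hZA)
  rw [Finset.card_union_of_disjoint hdisj, Finset.card_erase_of_mem hi, Finset.card_erase_of_mem hz,
    hC, hZ] at h5
  simpa using h5

include hC hZ in
theorem vNumber_S1 (hk : 1 ≤ k) : vNumber (SR K (S1 lab)) = (k + z : ℕ) := by
  obtain ⟨i, hi⟩ : (cls lab (Sum.inl (true, true))).Nonempty := by
    rw [← Finset.card_pos, hC]; omega
  obtain ⟨z', hz⟩ : (cls lab (Sum.inr true)).Nonempty := by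
    rw [← Finset.card_pos, hZ]; omega
  refine vNumber_eq ⟨Fs lab true i z', (cls lab (Sum.inl (true, true))).erase i ∪
      (cls lab (Sum.inr true)).erase z', face_Fs hC hi hz, ?_, ?_, dom_Fs hC hk hi hz⟩
    (fun F A hF hAF h => lower_S1 hC hZ hF hAF h hk)
  · intro x hx
    rw [mem_Fs]
    rcases Finset.mem_union.1 hx with hx | hx
    · obtain ⟨hx1, hx2⟩ := Finset.mem_erase.1 hx
      exact Or.inl ⟨(mem_cls lab).1 hx2, hx1⟩
    · obtain ⟨hx1, hx2⟩ := Finset.mem_erase.1 hx
      exact Or.inr (Or.inr (Or.inl ⟨(mem_cls lab).1 hx2, hx1⟩))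
  · rw [Finset.card_union_of_disjoint, Finset.card_erase_of_mem hi, Finset.card_erase_of_mem hz,
      hC, hZ]
    · simp
    · rw [Finset.disjoint_left]
      intro x hx hx'
      have hx1 := (mem_cls lab).1 (Finset.mem_of_mem_erase hx)
      have hx2 := (mem_cls lab).1 (Finset.mem_of_mem_erase hx')
      rw [hx1] at hx2
      cases hx2

include hC in
theorem facet_Fs (hk : 1 ≤ k) {b : Bool} {i z' : Fin n} (hi : i ∈ cls lab (Sum.inl (b, true)))
    (hz : z' ∈ cls lab (Sum.inr true)) : Facet (S1 lab) (Fs lab b i z') := by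
  refine ⟨face_Fs hC hi hz, fun G hG hFG => Finset.Subset.antisymm (fun j hj => ?_) hFG⟩
  by_contra hjF
  refine dom_Fs hC hk hi hz j hjF (hG.mono ?_)
  rw [Finset.insert_subset_iff]
  refine ⟨hj, fun x hx => hFG ?_⟩
  rw [mem_Fs]
  rcases Finset.mem_union.1 hx with hx | hx
  · obtain ⟨hx1, hx2⟩ := Finset.mem_erase.1 hx
    exact Or.inl ⟨(mem_cls lab).1 hx2, hx1⟩
  · obtain ⟨hx1, hx2⟩ := Finset.mem_erase.1 hx
    exact Or.inr (Or.inr (Or.inl ⟨(mem_cls lab).1 hx2, hx1⟩))

include hC hE hZ hW in
theorem card_facet {F : Finset (Fin n)} (hF : Facet (S1 lab) F) :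
    ∃ b, F.card = k + e b + z + w := by
  obtain ⟨b, i, z', hi, hz, hsub⟩ := exists_Fs hF.1
  have h1 := hF.2 _ (face_Fs hC hi hz) hsub
  exact ⟨b, by rw [← h1]; exact card_Fs hC hE hZ hW hi hz⟩

include hC hE hZ hW in
theorem exists_facet_card (hk : 1 ≤ k) (b : Bool) :
    ∃ F, Facet (S1 lab) F ∧ F.card = k + e b + z + w := by
  obtain ⟨i, hi⟩ : (cls lab (Sum.inl (b, true))).Nonempty := by
    rw [← Finset.card_pos, hC]; omega
  obtain ⟨z', hz⟩ : (cls lab (Sum.inr true)).Nonempty := by
    rw [← Finset.card_pos, hZ]; omega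
  exact ⟨_, facet_Fs hC hk hi hz, card_Fs hC hE hZ hW hi hz⟩

end family

/-- labellings with prescribed class sizes exist -/
theorem exists_lab {L : Type} [Fintype L] [DecidableEq L] (c : L → ℕ) :
    ∃ (n : ℕ) (lab : Fin n → L), ∀ l, (Finset.univ.filter (fun i => lab i = l)).card = c l := by
  let e := (Fintype.equivFin (Σ l : L, Fin (c l))).symm
  refine ⟨Fintype.card (Σ l : L, Fin (c l)), fun i => (e i).1, fun l => ?_⟩
  have h : Finset.univ.filter (fun i => (e i).1 = l) =
      (Finset.univ : Finset (Fin (c l))).map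
        ((Function.Embedding.sigmaMk (β := fun l : L => Fin (c l)) l).trans
          e.symm.toEmbedding) := by
    ext i
    simp only [Finset.mem_filter, Finset.mem_univ, true_and, Finset.mem_map,
      Function.Embedding.trans_apply, Function.Embedding.sigmaMk_apply, Equiv.coe_toEmbedding]
    constructor
    · intro hi
      rcases hx : e i with ⟨l', x⟩
      rw [hx] at hi
      have hi' : l' = l := hi
      subst hi'
      exact ⟨x, by rw [← hx, Equiv.symm_apply_apply]⟩
    · rintro ⟨x, rfl⟩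
      rw [Equiv.apply_symm_apply]
  rw [h, Finset.card_map, Finset.card_univ, Fintype.card_fin]

end partD

/-! ### The theorem -/

open MvPolynomial

section final

variable {K : Type*} [Field K]

/-- the values attained by an ideal given by its facets -/
theorem values_of_facets {n : ℕ} {S : Set (Finset (Fin n))} {m d : ℕ}
    (hm : ∃ F, Facet S F ∧ F.card = m) (hd : ∃ F, Facet S F ∧ F.card = d)
    (hmd : ∀ F, Facet S F → m ≤ F.card ∧ F.card ≤ d) :
    IsLeast {x : WithBot ℕ∞ | ∃ p ∈ associatedPrimes (MvPolynomial (Fin n) K)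
      (MvPolynomial (Fin n) K ⧸ SR K S), x = ringKrullDim (MvPolynomial (Fin n) K ⧸ p)}
      ((m : ℕ) : WithBot ℕ∞) ∧
    ringKrullDim (MvPolynomial (Fin n) K ⧸ SR K S) = ((d : ℕ) : WithBot ℕ∞) := by
  refine ⟨⟨?_, ?_⟩, le_antisymm (dim_le fun F hF => (hmd F hF).2) ?_⟩
  · obtain ⟨F, hF, hFm⟩ := hm
    exact ⟨PP K F, assoc_iff.2 ⟨F, hF, rfl⟩, by rw [dim_PP, hFm]⟩
  · rintro x ⟨p, hp, rfl⟩
    obtain ⟨F, hF, rfl⟩ := assoc_iff.1 hp
    rw [dim_PP]
    exact_mod_cast (hmd F hF).1
  · obtain ⟨F, hF, hFd⟩ := hd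
    rw [← hFd]
    exact le_dim hF.1

/-- the necessary conditions -/
theorem necessary {n : ℕ} {S : Set (Finset (Fin n))} (h0 : Face S ∅) {a b m d : ℕ}
    (ha : vNumber (SR K S) = a) (hb : depth (SR K S) = b)
    (hm : IsLeast {x : WithBot ℕ∞ | ∃ p ∈ associatedPrimes (MvPolynomial (Fin n) K)
      (MvPolynomial (Fin n) K ⧸ SR K S), x = ringKrullDim (MvPolynomial (Fin n) K ⧸ p)}
      ((m : ℕ) : WithBot ℕ∞))
    (hd : ringKrullDim (MvPolynomial (Fin n) K ⧸ SR K S) = ((d : ℕ) : WithBot ℕ∞)) :
    (a = 0 ∧ b = d ∧ m = d) ∨ (1 ≤ a ∧ a ≤ m ∧ 1 ≤ b ∧ b ≤ m ∧ m ≤ d) := by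
  obtain ⟨⟨p, hp, hpm⟩, -⟩ := hm
  obtain ⟨F, hF, rfl⟩ := assoc_iff.1 hp
  rw [dim_PP] at hpm
  have hFm : m = F.card := by exact_mod_cast hpm
  rcases Nat.eq_zero_or_pos a with rfl | hapos
  · left
    obtain ⟨G, hG, hSG, huniq⟩ := eq_PP_of_vNumber_eq_zero (K := K) (S := S) (by simpa using ha)
    have hFG := huniq F hF
    subst hFG
    rw [hSG, depth_PP] at hb
    rw [hSG, dim_PP] at hd
    have hb' : F.card = b := by exact_mod_cast hb
    have hd' : F.card = d := by exact_mod_cast hd
    omega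
  · right
    have h1 : a ≤ F.card := by
      have := vNumber_le_card (K := K) hF
      rw [ha] at this
      exact_mod_cast this
    have h2 : b ≤ F.card := depth_le_card hF hb
    have h3 : F.card ≤ d := by
      have := le_dim (K := K) hF.1
      rw [hd] at this
      exact_mod_cast this
    have h4 : 1 ≤ b := by
      refine one_le_depth h0 (fun G hG => ?_) hb
      by_contra hne
      rw [Finset.not_nonempty_iff_eq_empty] at hne
      subst hne
      have := vNumber_le_card (K := K) hG
      rw [ha, Finset.card_empty] at this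
      have : a ≤ 0 := by exact_mod_cast this
      omega
    omega

/-- realization of the values with `v = 0` -/
theorem realize_zero (d : ℕ) : ∃ (n : ℕ) (I : Ideal (MvPolynomial (Fin n) K)),
    IsSquarefreeMonomialIdeal I ∧ vNumber I = ((0 : ℕ) : ℕ∞) ∧ depth I = ((d : ℕ) : ℕ∞) ∧
    IsLeast {x : WithBot ℕ∞ | ∃ p ∈ associatedPrimes (MvPolynomial (Fin n) K)
      (MvPolynomial (Fin n) K ⧸ I), x = ringKrullDim (MvPolynomial (Fin n) K ⧸ p)}
      ((d : ℕ) : WithBot ℕ∞) ∧
    ringKrullDim (MvPolynomial (Fin n) K ⧸ I) = ((d : ℕ) : WithBot ℕ∞) := by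
  let F : Finset (Fin (d + 1)) := Finset.univ.erase 0
  have hFc : F.card = d := by
    rw [Finset.card_erase_of_mem (Finset.mem_univ _), Finset.card_univ, Fintype.card_fin]
    rfl
  let S : Set (Finset (Fin (d + 1))) := {s | ∃ i, i ∉ F ∧ s = {i}}
  have hPP : PP K F = SR K S := by
    unfold PP SR
    congr 1
    ext x
    constructor
    · rintro ⟨i, hi, rfl⟩
      exact ⟨{i}, ⟨i, hi, rfl⟩, by simp⟩
    · rintro ⟨_, ⟨i, hi, rfl⟩, rfl⟩
      exact ⟨i, hi, by simp⟩
  have hFace : ∀ A, Face S A ↔ A ⊆ F := by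
    intro A
    constructor
    · intro h i hi
      by_contra hiF
      exact h {i} ⟨i, hiF, rfl⟩ (Finset.singleton_subset_iff.2 hi)
    · rintro h s ⟨i, hi, rfl⟩ hsub
      exact hi (h (Finset.singleton_subset_iff.1 hsub))
  have hFF : Facet S F := ⟨(hFace F).2 (Finset.Subset.refl _),
    fun G hG hFG => Finset.Subset.antisymm ((hFace G).1 hG) hFG⟩
  have huniq : ∀ G, Facet S G → G = F := fun G hG => (hG.2 F hFF.1 ((hFace G).1 hG.1)).symm
  have hvals := values_of_facets (K := K) (S := S) (m := d) (d := d) ⟨F, hFF, hFc⟩ ⟨F, hFF, hFc⟩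
    (fun G hG => by rw [huniq G hG, hFc]; exact ⟨le_rfl, le_rfl⟩)
  refine ⟨d + 1, SR K S, ⟨?_, S, rfl⟩, ?_, ?_, hvals.1, hvals.2⟩
  · rw [SR_ne_top_iff, hFace]
    exact Finset.empty_subset _
  · have h1 := vNumber_le (K := K) (S := S) (F := F) (A := ∅) hFF.1 (Finset.empty_subset _) (by
      intro j hj hface
      rw [hFace] at hface
      exact hj (hface (by simp)))
    simpa using h1
  · rw [← hPP, depth_PP, hFc]

/-- realization of the values with `v ≥ 1` -/
theorem realize_pos {a b m d : ℕ} (ha : 1 ≤ a) (ham : a ≤ m) (hb : 1 ≤ b) (hbm : b ≤ m)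
    (hmd : m ≤ d) : ∃ (n : ℕ) (I : Ideal (MvPolynomial (Fin n) K)),
    IsSquarefreeMonomialIdeal I ∧ vNumber I = ((a : ℕ) : ℕ∞) ∧ depth I = ((b : ℕ) : ℕ∞) ∧
    IsLeast {x : WithBot ℕ∞ | ∃ p ∈ associatedPrimes (MvPolynomial (Fin n) K)
      (MvPolynomial (Fin n) K ⧸ I), x = ringKrullDim (MvPolynomial (Fin n) K ⧸ p)}
      ((m : ℕ) : WithBot ℕ∞) ∧
    ringKrullDim (MvPolynomial (Fin n) K ⧸ I) = ((d : ℕ) : WithBot ℕ∞) := by
  -- the parameters
  obtain ⟨z, k, w, e0, hk, h1, h2, h3⟩ : ∃ z k w e0 : ℕ, 1 ≤ k ∧ k + z = a ∧ z + w + 1 = b ∧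
      k + e0 + z + w = m :=
    ⟨a + b - (m + 1), a - (a + b - (m + 1)), b - 1 - (a + b - (m + 1)),
      m + 1 + (a + b - (m + 1)) - (a + b), by omega, by omega, by omega, by omega⟩
  let e : Bool → ℕ := fun c => if c then e0 else e0 + (d - m)
  obtain ⟨n, lab, hlab⟩ := exists_lab (L := (Bool × Bool) ⊕ Bool)
    (fun l => match l with
      | Sum.inl (_, true) => k + 1
      | Sum.inl (c, false) => e c
      | Sum.inr true => z + 1
      | Sum.inr false => w)
  have hC : ∀ c, (cls lab (Sum.inl (c, true))).card = k + 1 := fun c => hlab (Sum.inl (c, true))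
  have hE : ∀ c, (cls lab (Sum.inl (c, false))).card = e c := fun c => hlab (Sum.inl (c, false))
  have hZ : (cls lab (Sum.inr true)).card = z + 1 := hlab (Sum.inr true)
  have hW : (cls lab (Sum.inr false)).card = w := hlab (Sum.inr false)
  obtain ⟨F1, hF1, hF1c⟩ := exists_facet_card hC hE hZ hW hk true
  obtain ⟨F2, hF2, hF2c⟩ := exists_facet_card hC hE hZ hW hk false
  have e1 : e true = e0 := rfl
  have e2 : e false = e0 + (d - m) := rfl
  have hvals := values_of_facets (K := K) (S := S1 lab) (m := m) (d := d)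
    ⟨F1, hF1, by rw [hF1c, e1]; omega⟩ ⟨F2, hF2, by rw [hF2c, e2]; omega⟩
    (fun G hG => by
      obtain ⟨c, hc⟩ := card_facet hC hE hZ hW hG
      rcases c with _ | _
      · rw [hc, e2]; omega
      · rw [hc, e1]; omega)
  refine ⟨n, SR K (S1 lab), ⟨?_, S1 lab, rfl⟩, ?_, ?_, hvals.1, hvals.2⟩
  · rw [SR_ne_top_iff]
    exact hF1.1.mono (Finset.empty_subset _)
  · rw [vNumber_S1 hC hZ hk, h1]
  · rw [depth_S1 hC hZ hW hk, h2]

/-- **The possible values of the v-number, the depth, and the dimensions.** -/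
theorem result (K : Type*) [Field K] (a b m d : ℕ) :
    (∃ (n : ℕ) (I : Ideal (MvPolynomial (Fin n) K)), IsSquarefreeMonomialIdeal I ∧
      vNumber I = ((a : ℕ) : ℕ∞) ∧ depth I = ((b : ℕ) : ℕ∞) ∧
      IsLeast {x : WithBot ℕ∞ | ∃ p ∈ associatedPrimes (MvPolynomial (Fin n) K)
        (MvPolynomial (Fin n) K ⧸ I), x = ringKrullDim (MvPolynomial (Fin n) K ⧸ p)}
        ((m : ℕ) : WithBot ℕ∞) ∧
      ringKrullDim (MvPolynomial (Fin n) K ⧸ I) = ((d : ℕ) : WithBot ℕ∞)) ↔
    (a = 0 ∧ b = d ∧ m = d) ∨ (1 ≤ a ∧ a ≤ m ∧ 1 ≤ b ∧ b ≤ m ∧ m ≤ d) := by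
  constructor
  · rintro ⟨n, I, ⟨hI, S, rfl⟩, ha, hb, hm, hd⟩
    exact necessary (SR_ne_top_iff.1 hI) ha hb hm hd
  · rintro (⟨rfl, rfl, rfl⟩ | ⟨h1, h2, h3, h4, h5⟩)
    · exact realize_zero _
    · exact realize_pos h1 h2 h3 h4 h5

end final

end Pool.Agent.Results.MP_d06a13_ag.AllValues
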